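import Mathlib
import Pool.Agent.K1H13.N.Burn

/-!
# Vectors fixed by subgroups of finite index
-/

set_option linter.unusedSectionVars false

namespace Pool.Agent.K1H15.MT

open Module Finset Function Pool.Agent.K1H13.N

variable {K : Type} [Field K] [CharZero K] [IsAlgClosed K]

/-- The restriction of a representation to a stable subspace. -/
def resS {G E : Type} [Group G] [AddCommGroup E] [Module K E] (r : Representation K G E)
    (F : Submodule K E) (hF : ∀ g, ∀ x ∈ F, r g x ∈ F) : Representation K G F where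
  toFun g := (r g).restrict (hF g)
  map_one' := by
    apply LinearMap.ext
    intro u
    apply Subtype.ext
    simp
  map_mul' g h := by
    apply LinearMap.ext
    intro u
    apply Subtype.ext
    simp

theorem resS_apply {G E : Type} [Group G] [AddCommGroup E] [Module K E]
    (r : Representation K G E) (F : Submodule K E) (hF : ∀ g, ∀ x ∈ F, r g x ∈ F) (g : G) (x : F) :
    ((resS r F hF g x : F) : E) = r g x := rfl

/-- If the eigenvalues of all elements of a group are roots of unity of bounded order, then a nonzero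
vector is fixed by a subgroup of finite index. -/
theorem exists_fixed {G E : Type} [Group G] [AddCommGroup E] [Module K E] [FiniteDimensional K E]
    [Nontrivial E] (r : Representation K G E) {m : ℕ} (hm : 0 < m)
    (h : ∀ g, ∀ a : K, (∃ x, x ≠ 0 ∧ r g x = a • x) → a ^ m = 1) :
    ∃ H : Subgroup G, H.FiniteIndex ∧ ∃ x : E, x ≠ 0 ∧ ∀ g ∈ H, r g x = x := by
  classical
  -- a minimal stable subspace
  have hex : ∃ n : ℕ, ∃ F : Submodule K E, (∀ g, ∀ x ∈ F, r g x ∈ F) ∧ F ≠ ⊥ ∧ finrank K F = n :=
    ⟨_, ⊤, fun _ _ _ => trivial, top_ne_bot, rfl⟩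
  obtain ⟨F, hF, hF0, hFn⟩ := Nat.find_spec hex
  have hmin : ∀ F' : Submodule K E, (∀ g, ∀ x ∈ F', r g x ∈ F') → F' ≤ F → F' ≠ ⊥ → F' = F := by
    intro F' h1 h2 h3
    apply Submodule.eq_of_le_of_finrank_le h2
    rw [hFn]
    exact Nat.find_min' hex ⟨F', h1, h3, rfl⟩
  have hnt : Nontrivial F := Submodule.nontrivial_iff_ne_bot.2 hF0
  let r' := resS r F hF
  have hirr : ∀ W : Submodule K F, (∀ g, ∀ w ∈ W, r' g w ∈ W) → W = ⊥ ∨ W = ⊤ := by
    intro W hW
    by_cases h0 : W = ⊥
    · exact Or.inl h0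
    right
    have h1 : W.map F.subtype = F := by
      refine hmin _ ?_ (Submodule.map_subtype_le F W) ?_
      · rintro g _ ⟨w, hw, rfl⟩
        exact ⟨_, hW g w hw, rfl⟩
      · intro h2
        apply h0
        rw [eq_bot_iff]
        intro w hw
        have h3 : (w : E) ∈ W.map F.subtype := ⟨w, hw, rfl⟩
        rw [h2, Submodule.mem_bot] at h3
        rw [Submodule.mem_bot]
        exact Subtype.ext h3
    rw [eq_top_iff]
    intro x _
    have h2 : (x : E) ∈ W.map F.subtype := by
      rw [h1]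
      exact x.2
    obtain ⟨w, hw, hwx⟩ := h2
    have h3 : w = x := Subtype.ext hwx
    rwa [← h3]
  have heig : ∀ g, ∀ a : K, (∃ x, x ≠ 0 ∧ r' g x = a • x) → a ^ m = 1 := by
    rintro g a ⟨x, hx0, hx⟩
    exact h g a ⟨x, fun h => hx0 (Subtype.ext h), congrArg Subtype.val hx⟩
  obtain ⟨H, hH, hHs⟩ := burn (r := r') hirr hm (fun g a b ha hb => by
    rw [heig g a ha, heig g b hb])
  -- the kernel of the scalar character
  obtain ⟨x, hx0⟩ := exists_ne (0 : F)
  choose! c hc using hHs
  have hc' : ∀ g ∈ H, ∀ y : F, r' g y = c g • y := by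
    intro g hg y
    rw [hc g hg, LinearMap.smul_apply, Module.End.one_apply]
  have hcm : ∀ g ∈ H, c g ^ m = 1 := fun g hg => heig g _ ⟨x, hx0, hc' g hg x⟩
  let H' : Subgroup G :=
    { carrier := {g | g ∈ H ∧ r' g x = x}
      one_mem' := ⟨H.one_mem, by rw [map_one]; rfl⟩
      mul_mem' := by
        rintro a b ⟨ha, ha'⟩ ⟨hb, hb'⟩
        exact ⟨H.mul_mem ha hb, by rw [map_mul, Module.End.mul_apply, hb', ha']⟩
      inv_mem' := by
        rintro a ⟨ha, ha'⟩
        refine ⟨H.inv_mem ha, ?_⟩
        conv_lhs => rw [← ha']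
        rw [← Module.End.mul_apply, ← map_mul, inv_mul_cancel, map_one]
        rfl }
  have hM : Finite {y : K | y ^ m = 1} := by
    refine ((Multiset.toFinset (Polynomial.nthRoots m (1 : K))).finite_toSet.subset ?_).to_subtype
    intro y hy
    rw [Finset.mem_coe, Multiset.mem_toFinset, Polynomial.mem_nthRoots hm]
    exact hy
  have hfi : (H'.subgroupOf H).FiniteIndex := by
    refine Pool.Agent.TH118.CR.fi_of_map (H'.subgroupOf H) (T := {y : K | y ^ m = 1})
      (fun g => ⟨c g.1, hcm g.1 g.2⟩) ?_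
    rintro ⟨g, hg⟩ ⟨g', hg'⟩ hgg
    have h1 : c g = c g' := congrArg Subtype.val hgg
    rw [Subgroup.mem_subgroupOf]
    refine ⟨H.mul_mem (H.inv_mem hg) hg', ?_⟩
    change r' (g⁻¹ * g') x = x
    have h2 : r' g' x = r' g x := by rw [hc' g hg, hc' g' hg', h1]
    rw [map_mul, Module.End.mul_apply, h2, ← Module.End.mul_apply, ← map_mul, inv_mul_cancel,
      map_one]
    rfl
  have hH' : H'.FiniteIndex := by
    have h1 : H' ≤ H := fun g hg => hg.1
    constructor
    rw [← Subgroup.relIndex_mul_index h1]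
    exact mul_ne_zero hfi.index_ne_zero hH.index_ne_zero
  refine ⟨H', hH', x, fun h => hx0 (Subtype.ext h), fun g hg => ?_⟩
  exact congrArg Subtype.val hg.2

/-- The same for a pair of stable subspaces. -/
theorem exists_fixed_mod {G E : Type} [Group G] [AddCommGroup E] [Module K E]
    [FiniteDimensional K E] (r : Representation K G E) {m : ℕ} (hm : 0 < m) {N C : Submodule K E}
    (hN : ∀ g, ∀ x ∈ N, r g x ∈ N) (hC : ∀ g, ∀ x ∈ C, r g x ∈ C) (hNC : ¬ C ≤ N)
    (h : ∀ g, ∀ a : K, (∃ x ∈ C, x ≠ 0 ∧ r g x = a • x) → a ^ m = 1) :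
    ∃ H : Subgroup G, H.FiniteIndex ∧ ∃ x ∈ C, x ∉ N ∧ ∀ g ∈ H, r g x - x ∈ N := by
  classical
  -- the quotient representation
  let q : Representation K G (E ⧸ N) :=
    { toFun := fun g => N.mapQ N (r g) (fun x hx => hN g x hx)
      map_one' := by
        apply Submodule.linearMap_qext
        apply LinearMap.ext
        intro x
        simp
      map_mul' := fun g h => by
        apply Submodule.linearMap_qext
        apply LinearMap.ext
        intro x
        simp }
  have hq : ∀ g x, q g (Submodule.Quotient.mk x) = Submodule.Quotient.mk (r g x) := fun _ _ => rfl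
  let F : Submodule K (E ⧸ N) := C.map N.mkQ
  have hF : ∀ g, ∀ x ∈ F, q g x ∈ F := by
    rintro g _ ⟨x, hx, rfl⟩
    exact ⟨r g x, hC g x hx, rfl⟩
  have hF0 : F ≠ ⊥ := by
    intro h0
    apply hNC
    intro x hx
    have h1 : N.mkQ x ∈ F := ⟨x, hx, rfl⟩
    rw [h0, Submodule.mem_bot, Submodule.mkQ_apply, Submodule.Quotient.mk_eq_zero] at h1
    exact h1
  have hnt : Nontrivial F := Submodule.nontrivial_iff_ne_bot.2 hF0
  obtain ⟨H, hH, ⟨x, hxF⟩, hx0, hx⟩ := exists_fixed (resS q F hF) hm (fun g a hga => by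
    obtain ⟨⟨_, y, hy, rfl⟩, hy0, hya⟩ := hga
    have h1 : q g (N.mkQ y) = a • N.mkQ y := congrArg Subtype.val hya
    have hyN : y ∉ N := by
      intro h2
      apply hy0
      apply Subtype.ext
      change N.mkQ y = 0
      rw [Submodule.mkQ_apply, Submodule.Quotient.mk_eq_zero]
      exact h2
    have h2 : r g y - a • y ∈ N := by
      rw [← Submodule.Quotient.mk_eq_zero, Submodule.Quotient.mk_sub, Submodule.Quotient.mk_smul,
        ← hq, sub_eq_zero]
      exact h1
    -- otherwise `r g - a` is bijective on `C` and on `N`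
    apply h g a
    by_contra hcon
    push Not at hcon
    let T : E →ₗ[K] E := r g - a • LinearMap.id
    have hT : ∀ z, T z = r g z - a • z := fun _ => rfl
    have hTC : ∀ z ∈ C, T z ∈ C := fun z hz => Submodule.sub_mem _ (hC g z hz)
      (Submodule.smul_mem _ _ hz)
    let P : Submodule K E := C ⊓ N
    have hTP : ∀ z ∈ P, T z ∈ P := fun z hz => ⟨hTC z hz.1, Submodule.sub_mem _ (hN g z hz.2)
      (Submodule.smul_mem _ _ hz.2)⟩
    have hinjC : ∀ z ∈ C, T z = 0 → z = 0 := by
      intro z hz hz0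
      by_contra hne
      exact hcon z hz hne (sub_eq_zero.1 hz0)
    have hinj : Function.Injective (T.restrict hTP) := by
      rw [injective_iff_map_eq_zero]
      intro z hz
      apply Subtype.ext
      exact hinjC z z.2.1 (congrArg Subtype.val hz)
    have hsurj := LinearMap.injective_iff_surjective.1 hinj
    obtain ⟨z, hz⟩ := hsurj ⟨T y, hTC y hy, h2⟩
    have h3 : T z = T y := congrArg Subtype.val hz
    have h4 : y - (z : E) = 0 := by
      refine hinjC _ (Submodule.sub_mem _ hy z.2.1) ?_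
      rw [map_sub, h3, sub_self]
    apply hyN
    rw [sub_eq_zero.1 h4]
    exact z.2.2)
  obtain ⟨y, hy, hyx⟩ := hxF
  refine ⟨H, hH, y, hy, fun hyN => ?_, fun g hg => ?_⟩
  · apply hx0
    apply Subtype.ext
    change x = 0
    rw [← hyx, Submodule.mkQ_apply, Submodule.Quotient.mk_eq_zero]
    exact hyN
  · have h1 : q g x = x := congrArg Subtype.val (hx g hg)
    rw [← hyx, Submodule.mkQ_apply, hq] at h1
    rw [← Submodule.Quotient.mk_eq_zero, Submodule.Quotient.mk_sub, sub_eq_zero]
    exact h1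

end Pool.Agent.K1H15.MT
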