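import Mathlib
import Pool.Agent.K1H15.MT.Fix
import Pool.Agent.K1H13.N.Scal
import Pool.Agent.W516.Norm

/-!
# The commutant of the Lie algebra of the Tate classes
-/

set_option linter.unusedSectionVars false

namespace Pool.Agent.K1H15.MT

open Module Finset Function Pool.Agent.H204R3.SP Pool.Agent.H204R3.GP Pool.Agent.W522.U
  Pool.Agent.TH118.CR Pool.Agent.K1H13.D4 Pool.Agent.TH118.SG Pool.Agent.TH125.Gal
  Pool.Agent.K1H13.N Pool.Agent.W516.FT

section trace

variable {K : Type} [Field K] [CharZero K] {X : Type} [AddCommGroup X] [Module K X]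
  [FiniteDimensional K X] {Γ : Type} [Group Γ] {R : Representation K Γ X}

/-- The trace form on the commutant of a semisimple group is nondegenerate. -/
theorem exists_trace_ne {Δ : Subgroup Γ}
    (hp : ∀ U : Submodule K X, (∀ s ∈ Δ, ∀ u ∈ U, R s u ∈ U) → ∃ P : End K X, (∀ v, P v ∈ U) ∧
      (∀ u ∈ U, P u = u) ∧ ∀ s ∈ Δ, ∀ v, P (R s v) = R s (P v))
    {a : End K X} (ha : ∀ s ∈ Δ, ∀ v, a (R s v) = R s (a v)) (ha0 : a ≠ 0) :
    ∃ b : End K X, (∀ s ∈ Δ, ∀ v, b (R s v) = R s (b v)) ∧ LinearMap.trace K X (b * a) ≠ 0 := by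
  obtain ⟨P, hP1, hP2, hP3⟩ := hp (LinearMap.ker a) (fun s hs u hu => by
    rw [LinearMap.mem_ker] at hu ⊢
    rw [ha s hs, hu, map_zero])
  obtain ⟨Q, hQ1, hQ2, hQ3⟩ := hp (LinearMap.range a) (by
    rintro s hs _ ⟨u, rfl⟩
    exact ⟨R s u, ha s hs u⟩)
  have haP : ∀ x, a (P x) = 0 := fun x => hP1 x
  have hker : ∀ x, x - P x ∈ LinearMap.ker P := by
    intro x
    rw [LinearMap.mem_ker, map_sub, hP2 _ (hP1 x), sub_self]
  let a' : LinearMap.ker P →ₗ[K] LinearMap.range a :=
    (a.rangeRestrict).domRestrict (LinearMap.ker P)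
  have ha' : ∀ u : LinearMap.ker P, ((a' u : LinearMap.range a) : X) = a u := fun _ => rfl
  have hinj : Function.Injective a' := by
    rw [injective_iff_map_eq_zero]
    intro u hu
    have h1 : a (u : X) = 0 := congrArg Subtype.val hu
    apply Subtype.ext
    have h2 : P u = u := hP2 _ h1
    have h3 : P (u : X) = 0 := u.2
    rw [← h2, h3]
    rfl
  have hsurj : Function.Surjective a' := by
    rintro ⟨_, x, rfl⟩
    refine ⟨⟨x - P x, hker x⟩, Subtype.ext ?_⟩
    rw [ha']
    change a (x - P x) = a x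
    rw [map_sub, haP, sub_zero]
  let e : LinearMap.ker P ≃ₗ[K] LinearMap.range a := LinearEquiv.ofBijective a' ⟨hinj, hsurj⟩
  have he : ∀ u : LinearMap.ker P, ((e u : LinearMap.range a) : X) = a u := fun _ => rfl
  let b : End K X := (LinearMap.ker P).subtype ∘ₗ e.symm.toLinearMap ∘ₗ
    (LinearMap.codRestrict (LinearMap.range a) Q hQ1)
  have hb : ∀ x, b x = ((e.symm ⟨Q x, hQ1 x⟩ : LinearMap.ker P) : X) := fun _ => rfl
  have hbe : ∀ x (u : LinearMap.ker P), a u = Q x → b x = u := by
    intro x u hu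
    rw [hb]
    congr 1
    rw [LinearEquiv.symm_apply_eq]
    exact Subtype.ext hu.symm
  have hab : ∀ x, a (b x) = Q x := by
    intro x
    rw [hb, ← he, LinearEquiv.apply_symm_apply]
  refine ⟨b, fun s hs v => ?_, ?_⟩
  · have hst : R s (b v) ∈ LinearMap.ker P := by
      rw [LinearMap.mem_ker, hP3 s hs]
      have h1 : P (b v) = 0 := (e.symm ⟨Q v, hQ1 v⟩ : LinearMap.ker P).2
      rw [h1, map_zero]
    refine hbe _ ⟨R s (b v), hst⟩ ?_
    change a (R s (b v)) = _
    rw [ha s hs, hab, hQ3 s hs]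
  · have hba : b * a = 1 - P := by
      apply LinearMap.ext
      intro x
      refine hbe (a x) ⟨x - P x, hker x⟩ ?_
      change a (x - P x) = _
      rw [map_sub, haP, sub_zero, hQ2 _ ⟨x, rfl⟩]
    have hpr : LinearMap.IsProj (LinearMap.ker P) (b * a) := by
      rw [hba]
      constructor
      · intro x
        exact hker x
      · intro x hx
        rw [LinearMap.sub_apply, LinearMap.mem_ker.1 hx, sub_zero, Module.End.one_apply]
    rw [hpr.trace, Nat.cast_ne_zero]
    intro h0
    apply ha0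
    apply LinearMap.ext
    intro x
    rw [Submodule.finrank_eq_zero] at h0
    have h1 := hker x
    rw [h0, Submodule.mem_bot, sub_eq_zero] at h1
    rw [h1, haP, LinearMap.zero_apply]

end trace

variable {K : Type} [Field K] [CharZero K] [IsAlgClosed K] {X : Type} [AddCommGroup X] [Module K X]
  [FiniteDimensional K X] {Γ : Type} [Group Γ] {R : Representation K Γ X} {χ : Γ →* K}

/-- Adding a scalar to a slope operator gives an element of the Lie algebra. -/
theorem slope_lie {p : End K X × K} (hp : p ∈ LieP R (cu χ)) :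
    p.1 - (p.2 / 2) • (1 : End K X) ∈ lieT R χ := by
  intro m φ hφ v
  have h1 := hp _ φ m (semi_of_tate hφ) v
  have h2 : ∀ j, φ (update v j ((p.1 - (p.2 / 2) • (1 : End K X)) (v j))) =
      φ (update v j (p.1 (v j))) - (p.2 / 2) * φ v := by
    intro j
    rw [LinearMap.sub_apply, MultilinearMap.map_update_sub, LinearMap.smul_apply,
      MultilinearMap.map_update_smul, Module.End.one_apply, update_eq_self, smul_eq_mul]
  rw [Finset.sum_congr rfl fun j _ => h2 j, Finset.sum_sub_distrib, h1, Finset.sum_const,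
    Finset.card_univ, Fintype.card_prod, Fintype.card_fin, Fintype.card_fin, nsmul_eq_mul]
  push_cast
  ring

/-- Operators commuting with the Lie algebra commute with the slope operators. -/
theorem comm_slope {φ : End K X} (hφ : ∀ Y ∈ lieT R χ, Y * φ = φ * Y) {p : End K X × K}
    (hp : p ∈ LieP R (cu χ)) (x : X) : p.1 (φ x) = φ (p.1 x) := by
  have h1 := congrArg (fun f : End K X => f x) (hφ _ (slope_lie hp))
  simp only [Module.End.mul_apply, LinearMap.sub_apply, LinearMap.smul_apply,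
    Module.End.one_apply, map_sub, map_smul] at h1
  exact sub_left_injective h1

theorem exists_eig {f : End K X} {β : K} {x : X} (hx : x ∈ f.maxGenEigenspace β) (hx0 : x ≠ 0) :
    ∃ y, y ≠ 0 ∧ f y = β • y := by
  classical
  have hex := mem_gen.1 hx
  have h1 := Nat.find_spec hex
  have h2 : Nat.find hex ≠ 0 := by
    intro h
    rw [h, pow_zero, Module.End.one_apply] at h1
    exact hx0 h1
  obtain ⟨n, hn⟩ := Nat.exists_eq_succ_of_ne_zero h2
  have h3 := Nat.find_min hex (m := n) (by omega)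
  refine ⟨_, h3, ?_⟩
  rw [hn, pow_succ', Module.End.mul_apply, LinearMap.sub_apply, Module.algebraMap_end_apply,
    sub_eq_zero] at h1
  exact h1

/-- The conjugation action. -/
def Ad (R : Representation K Γ X) : Representation K Γ (End K X) where
  toFun g := LinearMap.mulLeft K (R g) ∘ₗ LinearMap.mulRight K (R g⁻¹)
  map_one' := by
    apply LinearMap.ext
    intro φ
    simp
  map_mul' g h := by
    apply LinearMap.ext
    intro φ
    simp [mul_assoc]

theorem Ad_apply (g : Γ) (φ : End K X) : Ad R g φ = R g * φ * R g⁻¹ := by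
  change R g * (φ * R g⁻¹) = _
  rw [mul_assoc]

/-- The eigenvalues of the conjugation on the commutant of the Lie algebra are roots of unity of
bounded order. -/
theorem eig_comm {m : ℕ} (hb : ∀ g : Γ, ∀ a b : K, (∃ x, x ≠ 0 ∧ R g x = a • x) →
    (∃ x, x ≠ 0 ∧ R g x = b • x) → (∃ k : ℕ, 0 < k ∧ a ^ k = b ^ k) → a ^ m = b ^ m)
    {φ : End K X} (hφ : ∀ Y ∈ lieT R χ, Y * φ = φ * Y) (hφ0 : φ ≠ 0) {g : Γ} {a : K}
    (ha : R g * φ * R g⁻¹ = a • φ) : a ^ m = 1 := by
  have hc : ∀ x, R g (φ x) = a • φ (R g x) := by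
    intro x
    have h1 := congrArg (fun f : End K X => f (R g x)) ha
    simp only [Module.End.mul_apply, LinearMap.smul_apply] at h1
    rwa [Rinv] at h1
  have ha0 : a ≠ 0 := by
    rintro rfl
    apply hφ0
    apply LinearMap.ext
    intro x
    have h1 := hc x
    rw [zero_smul] at h1
    by_contra hne
    exact Rne (R := R) g hne h1
  -- a generalized eigenvector
  obtain ⟨β, x, hx, hφx⟩ : ∃ β, ∃ x ∈ Module.End.maxGenEigenspace (R g) β, φ x ≠ 0 := by
    by_contra hcon
    push Not at hcon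
    exact hφ0 (op_ext (R g) fun β x hx => hcon β x hx)
  have hx0 : x ≠ 0 := by
    rintro rfl
    exact hφx (map_zero φ)
  have hy : φ x ∈ Module.End.maxGenEigenspace (R g) (a * β) := by
    obtain ⟨n, hn⟩ := mem_gen.1 hx
    refine mem_gen.2 ⟨n, ?_⟩
    have h1 : ∀ n : ℕ, ∀ z : X, ((R g - algebraMap K (End K X) (a * β)) ^ n) (φ z) =
        a ^ n • φ (((R g - algebraMap K (End K X) β) ^ n) z) := by
      intro n
      induction n with
      | zero => intro z; rw [pow_zero, pow_zero, pow_zero, one_smul]; rfl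
      | succ n ih =>
        intro z
        rw [pow_succ, Module.End.mul_apply, pow_succ (R g - algebraMap K (End K X) β),
          Module.End.mul_apply]
        have h2 : (R g - algebraMap K (End K X) (a * β)) (φ z) =
            a • φ ((R g - algebraMap K (End K X) β) z) := by
          rw [LinearMap.sub_apply, LinearMap.sub_apply, hc, Module.algebraMap_end_apply,
            Module.algebraMap_end_apply, map_sub, map_smul, smul_sub, smul_smul]
        rw [h2, map_smul, ih, smul_smul, pow_succ' a]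
    rw [h1, hn, map_zero, smul_zero]
  obtain ⟨u, hu0, hu⟩ := exists_eig hx hx0
  obtain ⟨w, hw0, hw⟩ := exists_eig hy hφx
  have hβ0 : β ≠ 0 := by
    rintro rfl
    rw [zero_smul] at hu
    exact Rne (R := R) g hu0 hu
  have hroot : ∃ k : ℕ, 0 < k ∧ a ^ k = 1 := by
    by_contra hno
    push Not at hno
    obtain ⟨θ, hθ⟩ := exists_add (Units.mk0 a ha0)
      (fun k hk h => hno k hk (congrArg Units.val h))
    obtain ⟨Y, hY, hYP⟩ := exists_slope (ρ := R) (χ := cu χ) g θ
    have h1 := comm_slope hφ hYP x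
    change Y (φ x) = φ (Y x) at h1
    rw [hY _ _ hy, hY _ _ hx, map_smul, ext0_mul θ ha0 hβ0, add_smul, add_eq_right] at h1
    apply hθ
    rw [← ext0_ne θ ha0]
    exact (smul_eq_zero.1 h1).resolve_right hφx
  obtain ⟨k, hk, hak⟩ := hroot
  have h1 := hb g (a * β) β ⟨w, hw0, hw⟩ ⟨u, hu0, hu⟩ ⟨k, hk, by rw [mul_pow, hak, one_mul]⟩
  rw [mul_pow] at h1
  exact mul_right_cancel₀ (pow_ne_zero m hβ0) (h1.trans (one_mul _).symm)

/-- The commutant of the Lie algebra. -/
def Cm (R : Representation K Γ X) (χ : Γ →* K) : Submodule K (End K X) where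
  carrier := {φ | ∀ Y ∈ lieT R χ, Y * φ = φ * Y}
  zero_mem' := fun Y _ => by rw [mul_zero, zero_mul]
  add_mem' := fun {a b} ha hb Y hY => by rw [mul_add, add_mul, ha Y hY, hb Y hY]
  smul_mem' := fun c a ha Y hY => by rw [mul_smul_comm, smul_mul_assoc, ha Y hY]

theorem am_zero : AlmostEquivariant R (0 : End K X) :=
  ⟨⊤, inferInstance, fun s _ v => by rw [LinearMap.zero_apply, LinearMap.zero_apply, map_zero]⟩

theorem am_add {P Q : End K X} (hP : AlmostEquivariant R P) (hQ : AlmostEquivariant R Q) :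
    AlmostEquivariant R (P + Q) := by
  obtain ⟨Δ, hΔ, hP⟩ := hP
  obtain ⟨Δ', hΔ', hQ⟩ := hQ
  refine ⟨Δ ⊓ Δ', inferInstance, fun s hs v => ?_⟩
  rw [LinearMap.add_apply, LinearMap.add_apply, hP s hs.1, hQ s hs.2, map_add]

theorem am_smul (c : K) {P : End K X} (hP : AlmostEquivariant R P) :
    AlmostEquivariant R (c • P) := by
  obtain ⟨Δ, hΔ, hP⟩ := hP
  refine ⟨Δ, hΔ, fun s hs v => ?_⟩
  rw [LinearMap.smul_apply, LinearMap.smul_apply, hP s hs, map_smul]

/-- The operators which commute with a subgroup of finite index. -/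
def Am (R : Representation K Γ X) : Submodule K (End K X) where
  carrier := {φ | AlmostEquivariant R φ}
  zero_mem' := am_zero
  add_mem' := fun ha hb => am_add ha hb
  smul_mem' := fun c _ ha => am_smul c ha

/-- One subgroup of finite index commutes with all these operators. -/
theorem exists_common_sub (R : Representation K Γ X) : ∃ Δ : Subgroup Γ, Δ.FiniteIndex ∧
    ∀ φ ∈ Am R, ∀ s ∈ Δ, ∀ v, φ (R s v) = R s (φ v) := by
  let b := Module.finBasis K (Am R)
  have h1 : ∀ i, AlmostEquivariant R ((b i : Am R) : End K X) := fun i => (b i).2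
  choose Δ hΔ h2 using h1
  refine ⟨⨅ i, Δ i, Subgroup.finiteIndex_iInf hΔ, fun φ hφ s hs v => ?_⟩
  have h3 : φ = ∑ i, b.repr ⟨φ, hφ⟩ i • ((b i : Am R) : End K X) := by
    have h4 := congrArg Subtype.val (b.sum_repr ⟨φ, hφ⟩)
    rw [AddSubmonoidClass.coe_finsetSum] at h4
    exact h4.symm
  rw [h3, LinearMap.sum_apply, LinearMap.sum_apply, map_sum]
  refine Finset.sum_congr rfl fun i _ => ?_
  rw [LinearMap.smul_apply, LinearMap.smul_apply, h2 i s (Subgroup.mem_iInf.1 hs i), map_smul]

/-- **The commutant of the Lie algebra of the Tate classes consists of the operators which commute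
with a subgroup of finite index.** -/
theorem almost_of_comm (hss : HasProj R) (hb : BddRoots R) {φ : End K X}
    (hφ : ∀ Y ∈ lieT R χ, Y * φ = φ * Y) : AlmostEquivariant R φ := by
  classical
  obtain ⟨m, hm, hb⟩ := hb
  by_contra hcon
  have hN : ∀ g, ∀ x ∈ Am R, Ad R g x ∈ Am R := by
    rintro g x ⟨Δ, hΔ, h⟩
    refine ⟨Δ.comap (MulAut.conj g⁻¹).toMonoidHom, ⟨by
      rw [Subgroup.index_comap_of_surjective _ (MulAut.conj g⁻¹).surjective]
      exact hΔ.index_ne_zero⟩, fun t ht v => ?_⟩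
    have h1 : g⁻¹ * t * g ∈ Δ := by
      have h1 : g⁻¹ * t * g⁻¹⁻¹ ∈ Δ := ht
      rwa [inv_inv] at h1
    have h2 := h _ h1 (R g⁻¹ v)
    rw [Ad_apply]
    simp only [Module.End.mul_apply]
    rw [map_mul, map_mul] at h2
    simp only [Module.End.mul_apply] at h2
    rw [Rinv'] at h2
    rw [h2, Rinv']
  have hC : ∀ g, ∀ x ∈ Cm R χ, Ad R g x ∈ Cm R χ := by
    intro g x hx Y hY
    have h1 := hx _ (lieT_conj R χ g⁻¹ hY)
    rw [inv_inv] at h1
    rw [Ad_apply]
    have h2 : R g * R g⁻¹ = 1 := rmul g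
    have h3 : Y * (R g * x * R g⁻¹) = R g * (R g⁻¹ * Y * R g * x) * R g⁻¹ := by
      have h4 : Y = R g * R g⁻¹ * Y := by rw [h2, one_mul]
      conv_lhs => rw [h4]
      simp only [mul_assoc]
    have h5 : R g * x * R g⁻¹ * Y = R g * (x * (R g⁻¹ * Y * R g)) * R g⁻¹ := by
      have h4 : Y = Y * (R g * R g⁻¹) := by rw [h2, mul_one]
      conv_lhs => rw [h4]
      simp only [mul_assoc]
    rw [h3, h5, h1]
  obtain ⟨H, hH, ψ, hψC, hψN, hψ⟩ := exists_fixed_mod (Ad R) hm hN hC (fun h => hcon (h hφ))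
    (fun g a ⟨x, hxC, hx0, hx⟩ => eig_comm hb hxC hx0 (by rw [← Ad_apply]; exact hx))
  obtain ⟨Δ₀, hΔ₀, hcom⟩ := exists_common_sub R
  apply hψN
  refine ⟨Δ₀ ⊓ H, inferInstance, fun s hs v => ?_⟩
  have hc : Ad R s ψ - ψ = 0 := by
    by_contra hne
    have hmem := hψ s hs.2
    obtain ⟨b, hb1, hb2⟩ := exists_trace_ne (Δ := Δ₀ ⊓ H) (hss _ inferInstance)
      (fun t ht v => hcom _ hmem t ht.1 v) hne
    apply hb2
    have h1 : b ∈ Am R := ⟨Δ₀ ⊓ H, inferInstance, hb1⟩
    have h2 : b * R s = R s * b := LinearMap.ext fun v => hcom b h1 s hs.1 v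
    rw [mul_sub, map_sub, Ad_apply]
    have h3 : b * (R s * ψ * R s⁻¹) = R s * (b * ψ * R s⁻¹) := by
      rw [mul_assoc (R s), ← mul_assoc b, h2]
      simp only [mul_assoc]
    rw [h3, LinearMap.trace_mul_comm, mul_assoc, rmul', mul_one, sub_self]
  rw [sub_eq_zero, Ad_apply] at hc
  have h1 := congrArg (fun f : End K X => f (R s v)) hc
  simp only [Module.End.mul_apply] at h1
  rw [Rinv] at h1
  exact h1.symm

end Pool.Agent.K1H15.MT
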