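import Mathlib
import Pool.Agent.K1H15.MT.Comm
import Pool.Agent.W516.MT.Casimir2

/-!
# The trace form on the Lie algebra of the Tate classes is nondegenerate
-/

set_option linter.unusedSectionVars false

namespace Pool.Agent.K1H15.MT

open Module Finset Function Pool.Agent.H204R3.SP Pool.Agent.H204R3.GP Pool.Agent.W522.U
  Pool.Agent.TH118.CR Pool.Agent.K1H13.D4 Pool.Agent.TH118.SG Pool.Agent.TH125.Gal
  Pool.Agent.K1H13.N Pool.Agent.W516.FT

/-- Almost equivariant operators commute with the Lie algebra of the Tate classes. -/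
theorem lie_comm {K : Type} [Field K] [CharZero K] {X : Type} [AddCommGroup X] [Module K X]
    {Γ : Type} [Group Γ]
    {R : Representation K Γ X} {χ : Γ →* K} {ω : X →ₗ[K] X →ₗ[K] K}
    (hnd : ∀ x, (∀ y, ω x y = 0) → x = 0) (hω : ∀ g x y, ω (R g x) (R g y) = χ g * ω x y)
    {P : End K X} (hP : AlmostEquivariant R P) {Y : End K X} (hY : Y ∈ lieT R χ) (v : X) :
    Y (P v) = P (Y v) := by
  obtain ⟨Δ, hΔ, hP⟩ := hP
  have hB : IsTate2 R χ (ω.comp P) := by
    refine ⟨Δ, hΔ, fun s hs u v => ?_⟩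
    rw [LinearMap.comp_apply, LinearMap.comp_apply, hP s hs, hω]
  rw [← sub_eq_zero]
  refine hnd _ fun w => ?_
  have h1 := lieT_bil R χ hB hY v w
  have h2 := lieT_sp R χ ω hω hY (P v) w
  rw [LinearMap.comp_apply, LinearMap.comp_apply] at h1
  rw [map_sub, LinearMap.sub_apply]
  linear_combination h2 - h1

variable {K : Type} [Field K] [CharZero K] [IsAlgClosed K] {X : Type} [AddCommGroup X] [Module K X]
  [FiniteDimensional K X] {Γ : Type} [Group Γ] {R : Representation K Γ X} {χ : Γ →* K}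

open scoped Classical in
/-- **Replicas** for one form. -/
theorem replica_one {S : Type} [Fintype S] [DecidableEq S]
    {φ : MultilinearMap K (fun _ : S => X) K} {Y : End K X} (hYφ : Kills Y φ) (f : K →+ K)
    {Z : End K X} (hZ : ∀ β, ∀ x ∈ Y.maxGenEigenspace β, Z x = f β • x) : Kills Z φ := by
  intro v
  have hYφ' : Mul Y 0 φ := by
    intro v
    rw [zero_mul]
    exact hYφ v
  let b : ∀ β : K, Basis (Fin (finrank K (Y.maxGenEigenspace β))) K (Y.maxGenEigenspace β) :=
    fun β => Module.finBasis K _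
  let B := (gen_internal Y).collectedBasis b
  have hB : ∀ i, B i ∈ Y.maxGenEigenspace i.1 := (gen_internal Y).collectedBasis_mem b
  let D : MultilinearMap K (fun _ : S => X) K :=
    ∑ j, φ.compLinearMap fun i => if i = j then Z else LinearMap.id
  have hD : ∀ v, D v = ∑ j, φ (update v j (Z (v j))) := by
    intro v
    rw [_root_.sum_apply]
    refine sum_congr rfl fun j _ => ?_
    rw [MultilinearMap.compLinearMap_apply]
    congr 1
    funext i
    by_cases hi : i = j
    · subst hi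
      rw [if_pos rfl, update_self]
    · rw [if_neg hi, update_of_ne hi, LinearMap.id_apply]
  have key : D = 0 := by
    refine Module.Basis.ext_multilinear (fun _ => B) fun r => ?_
    rw [hD, zero_apply]
    have h3 : ∀ j, φ (update (fun j => B (r j)) j (Z (B (r j)))) =
        f (r j).1 * φ fun j => B (r j) := by
      intro j
      rw [hZ _ _ (hB (r j)), MultilinearMap.map_update_smul, update_eq_self, smul_eq_mul]
    rw [sum_congr rfl fun j _ => h3 j, ← sum_mul, ← map_sum]
    by_cases h0 : ∑ j, (r j).1 = 0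
    · rw [h0, map_zero, zero_mul]
    · have h1 : ∀ j, ∃ n : ℕ, ((Y - algebraMap K (End K X) (r j).1) ^ n) (B (r j)) = 0 :=
        fun j => mem_gen.1 (hB (r j))
      choose n hn using h1
      rw [vanish hYφ' (fun j => (r j).1) h0 _ n (fun j => B (r j)) rfl hn, mul_zero]
  rw [← hD, key, zero_apply]

/-- The radical of the trace form. -/
def radT (R : Representation K Γ X) (χ : Γ →* K) : Submodule K (End K X) where
  carrier := {y | y ∈ lieT R χ ∧ ∀ z ∈ lieT R χ, LinearMap.trace K X (y * z) = 0}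
  zero_mem' := ⟨(lieT R χ).zero_mem, fun z _ => by rw [zero_mul, map_zero]⟩
  add_mem' := fun {u v} hu hv => ⟨(lieT R χ).add_mem hu.1 hv.1, fun z hz => by
    rw [add_mul, map_add, hu.2 z hz, hv.2 z hz, add_zero]⟩
  smul_mem' := fun c u hu => ⟨(lieT R χ).smul_mem c hu.1, fun z hz => by
    rw [smul_mul_assoc, map_smul, hu.2 z hz, smul_zero]⟩

theorem radT_conj (g : Γ) {Y : End K X} (hY : Y ∈ radT R χ) : R g * Y * R g⁻¹ ∈ radT R χ := by
  refine ⟨lieT_conj R χ g hY.1, fun z hz => ?_⟩
  have h1 := hY.2 (R g⁻¹ * z * R g) (by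
    have h2 := lieT_conj R χ g⁻¹ hz
    rwa [inv_inv] at h2)
  have h3 : R g * Y * R g⁻¹ * z = R g * (Y * (R g⁻¹ * z)) := by simp only [mul_assoc]
  rw [h3, LinearMap.trace_mul_comm, ← h1]
  simp only [mul_assoc]

theorem radT_bracket {Y Z : End K X} (hY : Y ∈ radT R χ) (hZ : Z ∈ radT R χ) :
    Y * Z - Z * Y ∈ radT R χ := by
  refine ⟨lieT_bracket R χ hY.1 hZ.1, fun w hw => ?_⟩
  have h1 := hY.2 _ (lieT_bracket R χ hZ.1 hw)
  have h2 : LinearMap.trace K X (Z * Y * w) = LinearMap.trace K X (Y * w * Z) := by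
    rw [mul_assoc, LinearMap.trace_mul_comm]
  rw [sub_mul, map_sub, h2, ← map_sub, ← h1]
  congr 1
  noncomm_ring

theorem radT_nil {Y : End K X} (hY : Y ∈ radT R χ) : IsNilpotent Y :=
  nil_of_trace fun f _ hZ => hY.2 _ fun m φ hφ => replica_one (hY.1 m φ hφ) f hZ

/-- **The trace form is nondegenerate.** -/
theorem nondegT {ω : X →ₗ[K] X →ₗ[K] K} (hnd : ∀ x, (∀ y, ω x y = 0) → x = 0)
    (hω : ∀ g x y, ω (R g x) (R g y) = χ g * ω x y) (hss : HasProj R) :
    Pool.Agent.W516.KC2.TraceNondeg (lieT R χ) := by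
  intro Y hY h
  exact nil_zero (ss_of_proj hss) (radT R χ) (fun Y hY Z hZ => radT_bracket hY hZ)
    (fun Y hY => radT_nil hY) (fun g Y hY => radT_conj g hY)
    (fun p hp Y hY x => (lie_comm hnd hω ⟨⊤, inferInstance, fun s _ v => hp s v⟩ hY.1 x).symm) Y
    ⟨hY, h⟩

end Pool.Agent.K1H15.MT
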