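import Mathlib
import Pool.Agent.K1H15.MT.TrN
import Pool.Agent.W516.MT.Main2

/-!
# Descent to the field of coefficients
-/

set_option linter.unusedSectionVars false

namespace Pool.Agent.K1H15.MT

open Module TensorProduct Finset Function Pool.Agent.H204R3.SP Pool.Agent.H204R3.GP
  Pool.Agent.W522.U Pool.Agent.K1H13.N Pool.Agent.W516.FT Pool.Agent.W516.DR

noncomputable section

variable {k : Type} [Field k] [CharZero k] {V : Type} [AddCommGroup V] [Module k V]
  [FiniteDimensional k V] {Γ : Type} [Group Γ] (ρ : Representation k Γ V) (χ : Γ →* k)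

section ext

variable {Ω : Type} [Field Ω] [CharZero Ω] [Algebra k Ω]

theorem fcmp_tate {m : ℕ} {Φ : MultilinearMap Ω (fun _ : Fin m × Fin 2 => Ω ⊗[k] V) Ω}
    (hΦ : IsTate (bcr ρ Ω) (bcc χ Ω) m Φ) (lam : Ω →ₗ[k] k) : IsTate ρ χ m (fcmp lam Φ) := by
  obtain ⟨Δ, hΔ, h⟩ := hΦ
  refine ⟨Δ, hΔ, fun s hs v => ?_⟩
  have h1 := h s hs (fun l => (1 : Ω) ⊗ₜ[k] v l)
  simp only [bcr_tmul] at h1
  rw [fcmp_apply, fcmp_apply, h1, bcc_apply, ← map_pow, ← Algebra.smul_def, map_smul, smul_eq_mul]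

theorem lie_ext {Y : Module.End k V} (hY : Y ∈ lieT ρ χ) :
    Y.baseChange Ω ∈ lieT (bcr ρ Ω) (bcc χ Ω) := by
  classical
  intro m Φ hΦ
  exact kills_span (fun ψ => IsTate ρ χ m ψ) Y (fun ψ hψ => hY m ψ hψ) Φ
    (form_mem_span (fun ψ => IsTate ρ χ m ψ) Φ fun lam => fcmp_tate ρ χ hΦ lam)

theorem lie_cmp {Z : Module.End Ω (Ω ⊗[k] V)} (hZ : Z ∈ lieT (bcr ρ Ω) (bcc χ Ω))
    (lam : Ω →ₗ[k] k) : cmpE lam Z ∈ lieT ρ χ := by
  classical
  intro m φ hφ
  exact (kills_bcm_iff (Module.finBasis k V) φ Z).1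
    (hZ m _ (bcm_tate (Module.finBasis k V) ρ χ φ hφ)) lam

theorem bc_inj' {A B : Module.End k V} (h : A.baseChange Ω = B.baseChange Ω) : A = B := by
  apply LinearMap.ext
  intro v
  obtain ⟨lam, hlam⟩ : ∃ lam : Ω →ₗ[k] k, lam 1 ≠ 0 := by
    by_contra hcon
    push Not at hcon
    exact one_ne_zero (eq_zero_of_dual (k := k) (x := (1 : Ω)) hcon)
  have h1 := congrArg (fun f : Module.End Ω (Ω ⊗[k] V) => cmp lam (f ((1 : Ω) ⊗ₜ[k] v))) h
  simp only [LinearMap.baseChange_tmul, cmp_tmul] at h1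
  exact smul_right_injective V hlam h1

theorem bc_inj {A : Module.End k V} (h : A.baseChange Ω = 0) : A = 0 :=
  bc_inj' (Ω := Ω) (by rw [h, LinearMap.baseChange_zero])

theorem am_desc {P : Module.End k V} (hP : AlmostEquivariant (bcr ρ Ω) (P.baseChange Ω)) :
    AlmostEquivariant ρ P := by
  obtain ⟨Δ, hΔ, h⟩ := hP
  refine ⟨Δ, hΔ, fun s hs v => ?_⟩
  have h1 : (P * ρ s).baseChange Ω = (ρ s * P).baseChange Ω := by
    rw [LinearMap.baseChange_mul, LinearMap.baseChange_mul]
    exact LinearMap.ext fun v => h s hs v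
  exact congrArg (fun f : Module.End k V => f v) (bc_inj' h1)

/-- The component of the trace. -/
theorem trace_cmp' (X : Module.End Ω (Ω ⊗[k] V)) (lam : Ω →ₗ[k] k) :
    lam (LinearMap.trace Ω _ X) = LinearMap.trace k V (cmpE lam X) := by
  classical
  let b := Module.finBasis k V
  rw [LinearMap.trace_eq_matrix_trace Ω (b.baseChange Ω), LinearMap.trace_eq_matrix_trace k b,
    Matrix.trace, Matrix.trace, map_sum]
  refine Finset.sum_congr rfl fun i _ => ?_
  rw [Matrix.diag_apply, Matrix.diag_apply, LinearMap.toMatrix_apply, LinearMap.toMatrix_apply,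
    Basis.baseChange_apply, cmpE_apply]
  have h2 : ∀ z : Ω ⊗[k] V, b.repr (cmp lam z) i = lam ((b.baseChange Ω).repr z i) := by
    intro z
    induction z with
    | zero => simp only [map_zero, Finsupp.zero_apply]
    | add z z' h h' => simp only [map_add, Finsupp.add_apply, h, h']
    | tmul a w =>
      rw [cmp_tmul, map_smul, Finsupp.smul_apply, Basis.baseChange_repr_tmul]
      rw [map_smul, smul_eq_mul, smul_eq_mul, mul_comm]
  rw [h2]

/-- The component of a product with the extension of an endomorphism. -/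
theorem cmpE_mul' (X : Module.End Ω (Ω ⊗[k] V)) (P : Module.End k V) (lam : Ω →ₗ[k] k) :
    cmpE lam (X * P.baseChange Ω) = cmpE lam X * P := by
  apply LinearMap.ext
  intro w
  rw [cmpE_apply, Module.End.mul_apply, Module.End.mul_apply, LinearMap.baseChange_tmul,
    cmpE_apply]

end ext

variable {ρ χ}

/-- The trace form of the Lie algebra is nondegenerate. -/
theorem traceNondeg {ω : V →ₗ[k] V →ₗ[k] k} (hnd : ∀ x, (∀ y, ω x y = 0) → x = 0)
    (hω : ∀ g x y, ω (ρ g x) (ρ g y) = χ g * ω x y) (hss : FiniteIndexSemisimple ρ) :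
    Pool.Agent.W516.KC2.TraceNondeg (lieT ρ χ) := by
  intro Y hY h
  let Ω := AlgebraicClosure k
  have _ : CharZero Ω := charZero_of_injective_algebraMap (algebraMap k Ω).injective
  have h1 := nondegT (R := bcr ρ Ω) (χ := bcc χ Ω) (ω := bcb Ω ω)
    (nondeg_ext ω (bcb Ω ω) (fun u v => bcb_one ω u v) hnd) (bcb_inv ρ χ ω hω)
    (hasProj_bcr ρ Ω hss) (Y.baseChange Ω) (lie_ext ρ χ hY) (fun Z hZ => by
      apply eq_zero_of_dual (k := k)
      intro lam
      rw [LinearMap.trace_mul_comm, trace_cmp', cmpE_mul', LinearMap.trace_mul_comm]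
      exact h _ (lie_cmp ρ χ hZ lam))
  exact bc_inj h1

/-- The commutant of the Lie algebra consists of the almost equivariant operators. -/
theorem almost_of_commute (hss : FiniteIndexSemisimple ρ)
    (hb : BddRoots (bcr ρ (AlgebraicClosure k))) {P : Module.End k V}
    (hP : ∀ Y ∈ lieT ρ χ, Y * P = P * Y) : AlmostEquivariant ρ P := by
  have _ : CharZero (AlgebraicClosure k) :=
    charZero_of_injective_algebraMap (algebraMap k (AlgebraicClosure k)).injective
  refine am_desc (Ω := AlgebraicClosure k) ρ (almost_of_comm (χ := bcc χ (AlgebraicClosure k))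
    (hasProj_bcr ρ (AlgebraicClosure k) hss) hb fun Z hZ => ?_)
  exact (comm_iff P Z).1 fun lam => hP _ (lie_cmp ρ χ hZ lam)

end

end Pool.Agent.K1H15.MT
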