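import Mathlib
import Pool.Agent.H204R3.GP.Defs
import Pool.Agent.W516.MT.Defs

/-!
# Hodge classes and Tate classes on the powers of an abelian variety: definitions

`W = H_1(A, ℚ)` is the rational homology of the abelian variety `A`, `T` its tangent space at the
origin and `per : W → T` the inclusion. The cohomology group `H^w(A^n, ℚ)` is the space of the
alternating forms on `W ^ n` in `w` variables, and `H^w(A^n, ℚ_ℓ)` is the space of the alternating
forms on `V ^ n`, where `V = ℚ_ℓ ⊗ W` is the rational Tate module.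
-/

namespace Pool.Agent.K1H15.MT

open TensorProduct Pool.Agent.H204R3.GP

/-- A class in `H^w(A^n, ℚ)`, that is a rational alternating form `ψ` on `W ^ n` in `w` variables
(indexed by `κ`), is a *Hodge class* if it extends to a real multilinear form on `T ^ n` which is
invariant under the multiplication by the complex numbers of absolute value `1`, that is, if it is of
type `(w / 2, w / 2)`. -/
def IsHodgeClass {W T : Type} [AddCommGroup W] [Module ℚ W] [AddCommGroup T] [Module ℂ T]
    (per : W →+ T) {n : ℕ} {κ : Type} (ψ : (Fin n → W) [⋀^κ]→ₗ[ℚ] ℚ) : Prop :=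
  ∃ Ψ : MultilinearMap ℝ (fun _ : κ => Fin n → T) ℝ,
    (∀ v : κ → Fin n → W, Ψ (fun l i => per (v l i)) = ψ v) ∧
    ∀ z : ℂ, ‖z‖ = 1 → ∀ u : κ → Fin n → T, Ψ (fun l i => z • u l i) = Ψ u

/-- The space of the linear combinations of Hodge classes in `H^{2j}(A^n, k)(j)`. -/
def hodgeSpace (k : Type) [Field k] [CharZero k] {W T : Type} [AddCommGroup W] [Module ℚ W]
    [AddCommGroup T] [Module ℂ T] (per : W →+ T) (n j : ℕ) :
    Submodule k ((Fin n → k ⊗[ℚ] W) [⋀^Fin j × Fin 2]→ₗ[k] k) :=
  Submodule.span k {f | ∃ ψ : (Fin n → W) [⋀^Fin j × Fin 2]→ₗ[ℚ] ℚ, IsHodgeClass per ψ ∧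
    ∀ v : Fin j × Fin 2 → Fin n → W, f (fun l i => (1 : k) ⊗ₜ[ℚ] v l i) = ((ψ v : ℚ) : k)}

/-- The space of the Tate classes in `H^{2j}(A^n, k)(j)`. -/
def tateSpace {k V Γ : Type} [Field k] [AddCommGroup V] [Module k V] [Group Γ]
    (ρ : Representation k Γ V) (χ : Γ →* k) (n j : ℕ) :
    Submodule k ((Fin n → V) [⋀^Fin j × Fin 2]→ₗ[k] k) :=
  Submodule.span k {f | IsTateClass ρ χ j f}

end Pool.Agent.K1H15.MT
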