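import Mathlib
import Pool.Agent.K1H15.MT.Desc
import Pool.Agent.W516.MT.AllFinal
import Pool.Agent.K1H13.N.Desc

/-!
# One Tate class in four variables decides the Mumford-Tate conjecture
-/

set_option linter.unusedSectionVars false

namespace Pool.Agent.K1H15.MT

open Module TensorProduct Finset Function Pool.Agent.H204R3.SP Pool.Agent.H204R3.GP
  Pool.Agent.W522.U Pool.Agent.K1H13.N Pool.Agent.W516.FT Pool.Agent.W516.DR
  Pool.Agent.W516.KC Pool.Agent.W516.MTM

open Pool.Agent.W516 (MTD.IsRationalStructure MTD.IsHodgeCombination MTD.Faltings MTD.Deligne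
  MTD.Centres MTD.endos)

noncomputable section

variable {k : Type} [Field k] [CharZero k] {W T : Type} [AddCommGroup W] [Module ℚ W]
  [FiniteDimensional ℚ W] [AddCommGroup T] [Module ℂ T] (per : W →+ T)
  {Γ : Type} [Group Γ] (ρ : Representation k Γ (k ⊗[ℚ] W)) (χ : Γ →* k)
  (ω₀ : W →ₗ[ℚ] W →ₗ[ℚ] ℚ) (ω : k ⊗[ℚ] W →ₗ[k] k ⊗[ℚ] W →ₗ[k] k)
  (hH : IsHodgeBilinear per ω₀)
  (hωω : ∀ u v : W, ω ((1 : k) ⊗ₜ[ℚ] u) ((1 : k) ⊗ₜ[ℚ] v) = algebraMap ℚ k (ω₀ u v))
  (hωρ : ∀ s u v, ω (ρ s u) (ρ s v) = χ s * ω u v)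
  (hD : MTD.Deligne per ρ χ)

include hωω in
theorem nondeg_down (hnd : ∀ u, (∀ v, ω u v = 0) → u = 0) : ∀ u, (∀ v, ω₀ u v = 0) → u = 0 := by
  intro u hu
  have h1 : (1 : k) ⊗ₜ[ℚ] u = 0 := by
    apply hnd
    have h2 : ω ((1 : k) ⊗ₜ[ℚ] u) = 0 := by
      refine TensorProduct.AlgebraTensorModule.ext fun c v => ?_
      have h3 : c ⊗ₜ[ℚ] v = c • ((1 : k) ⊗ₜ[ℚ] v) := by rw [smul_tmul', smul_eq_mul, mul_one]
      rw [h3, map_smul, hωω, hu, map_zero, smul_zero]
      simp
    intro v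
    rw [h2, LinearMap.zero_apply]
  let b := finBasis ℚ W
  apply b.repr.injective
  ext i
  have h2 := congrArg (fun z => (b.baseChange k).repr z i) h1
  simp only [Basis.baseChange_repr_tmul, map_zero, Finsupp.zero_apply] at h2
  rw [map_zero, Finsupp.zero_apply]
  rw [Algebra.smul_def, mul_one] at h2
  exact (map_eq_zero_iff _ (algebraMap ℚ k).injective).1 h2

include hH hωω hωρ hD in
/-- **One Tate class in four variables decides the Mumford-Tate conjecture.** -/
theorem exists_decisive (hper : MTD.IsRationalStructure per)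
    (hnd : ∀ u, (∀ v, ω u v = 0) → u = 0) (hss : FiniteIndexSemisimple ρ)
    (hb : BddRoots (bcr ρ (AlgebraicClosure k)))
    (hF : MTD.Faltings per ρ) (hC : MTD.Centres per ρ χ) :
    ∃ Θ : MultilinearMap k (fun _ : Fin 2 × Fin 2 => k ⊗[ℚ] W) k,
      (∀ s v, Θ (fun l => ρ s (v l)) = χ s ^ 2 * Θ v) ∧
      (MTD.IsHodgeCombination per Θ → ∀ (m : ℕ)
        (φ : MultilinearMap k (fun _ : Fin m × Fin 2 => k ⊗[ℚ] W) k),
        IsTateTensor ρ χ m φ → MTD.IsHodgeCombination per φ) := by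
  have hnd₀ := nondeg_down ω₀ ω hωω hnd
  have hnt := traceNondeg (ρ := ρ) (χ := χ) hnd hωρ hss
  have hcomm : ∀ P : Module.End k (k ⊗[ℚ] W), (∀ X ∈ lieT ρ χ, X * P = P * X) →
      P ∈ MTD.endos k per := fun P hP => hF P (almost_of_commute hss hb hP)
  have hlc : ∀ {X : Module.End k (k ⊗[ℚ] W)}, X ∈ lieT ρ χ → ∀ {P : Module.End k (k ⊗[ℚ] W)},
      P ∈ MTD.endos k per → X * P = P * X := by
    intro X hX P hP
    exact LinearMap.ext fun v =>
      lie_comm hnd hωρ (almost_of_endos per ρ χ ω₀ ω hH hnd₀ hωω hωρ hD hP) hX v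
  refine ⟨Pool.Agent.W516.KC2.casimir (lieT ρ χ) hnt ω, fun s v => ?_, fun hΘ => ?_⟩
  · refine Pool.Agent.W516.KC2.casimir_inv (lieT ρ χ) hnt ω (g := ρ s) (g' := ρ s⁻¹) ?_ ?_ (hωρ s) ?_ ?_ v
    · rw [← map_mul, inv_mul_cancel, map_one]
    · rw [← map_mul, mul_inv_cancel, map_one]
    · intro X hX
      exact lieT_conj ρ χ s hX
    · intro X hX
      have h1 := lieT_conj ρ χ s⁻¹ hX
      rwa [inv_inv] at h1
  · intro m φ hφ
    -- the endomorphisms that kill the Hodge classes are in the Lie algebra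
    have hmem : ∀ Z₀ : Module.End ℚ W, (∀ (m' : ℕ)
        (ψ : MultilinearMap ℚ (fun _ : Fin m' × Fin 2 => W) ℚ), IsHodgeTensor per ψ →
          Kills Z₀ ψ) → Z₀.baseChange k ∈ lieT ρ χ := by
      intro Z₀ hk
      have hZs : IsSkew ω (Z₀.baseChange k) :=
        skew_ext ω₀ ω hωω ((kills_one2 ω₀ Z₀).1 (hk 1 _ (one2_hodge per ω₀ hH)))
      have hZk : Kills (Z₀.baseChange k) (Pool.Agent.W516.KC2.casimir (lieT ρ χ) hnt ω) :=
        kills_span (fun ψ => IsHodgeTensor per ψ) Z₀ (hk 2) _ ((hc_iff per _).1 hΘ)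
      obtain ⟨Y, hY, hYc⟩ := Pool.Agent.W516.KC2.mem_of_kills_casimir (lieT ρ χ) hnt ω
        (fun X hX Y hY => lieT_bracket ρ χ hX hY) hnd hZs hZk
      have h1 : Z₀.baseChange k - Y ∈ lieT ρ χ := by
        refine hC _ (hcomm _ hYc) (fun P hP => ?_) (fun m φ hφ => ?_)
        · have e1 := comm_endos' (k := k) per ω₀ hH hnd₀ Z₀ hk hP
          have e2 := hlc hY hP
          refine LinearMap.ext fun z => ?_
          have e3 := congrArg (fun f : Module.End k (k ⊗[ℚ] W) => f z) e1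
          have e4 := congrArg (fun f : Module.End k (k ⊗[ℚ] W) => f z) e2
          simp only [Module.End.mul_apply] at e3 e4
          rw [Module.End.mul_apply, Module.End.mul_apply, LinearMap.sub_apply, LinearMap.sub_apply,
            map_sub, e3, e4]
        · have h2 := kills_span (fun ψ => IsHodgeTensor per ψ) Z₀ (hk m) φ ((hc_iff per φ).1 hφ)
          have h3 := lieT_hc per ρ χ hD hY φ hφ
          intro v
          have h4 : ∀ j, φ (Function.update v j ((Z₀.baseChange k - Y) (v j))) =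
              φ (Function.update v j (Z₀.baseChange k (v j))) -
                φ (Function.update v j (Y (v j))) := by
            intro j
            rw [LinearMap.sub_apply, MultilinearMap.map_update_sub]
          rw [Finset.sum_congr rfl (fun j _ => h4 j), Finset.sum_sub_distrib, h2 v, h3 v, sub_zero]
      have h2 : Z₀.baseChange k = (Z₀.baseChange k - Y) + Y := by abel
      rw [h2]
      exact Submodule.add_mem _ h1 hY
    rw [hc_iff]
    refine form_mem_span (fun ψ => IsHodgeTensor per ψ) φ fun lam => ?_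
    refine hodge_of_kills per hper _ fun Z₀ hk => ?_
    exact kills_fcmp lam φ Z₀ (hmem Z₀ hk m φ hφ)

end

end Pool.Agent.K1H15.MT
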