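import Mathlib
import Pool.Agent.K1H15.MT.ADefs
import Pool.Agent.K1H15.MT.Final

/-!
# From multilinear forms to the cohomology of the powers
-/

set_option linter.unusedSectionVars false

namespace Pool.Agent.K1H15.MT

open Module TensorProduct Finset Function Pool.Agent.H204R3.SP Pool.Agent.H204R3.GP
  Pool.Agent.W516.MTD Pool.Agent.K1H13.N

noncomputable section

section gen

variable {F : Type} [Field F] {V : Type} [AddCommGroup V] [Module F V] {κ : Type} [Fintype κ]
  [DecidableEq κ] {n : ℕ}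

/-- Restriction to the factors. -/
def rsI (I : κ → Fin n) (f : MultilinearMap F (fun _ : κ => Fin n → V) F) :
    MultilinearMap F (fun _ : κ => V) F :=
  f.compLinearMap fun l => LinearMap.single F (fun _ => V) (I l)

theorem rsI_apply (I : κ → Fin n) (f : MultilinearMap F (fun _ : κ => Fin n → V) F)
    (v : κ → V) : rsI I f v = f (fun l => Pi.single (I l) (v l)) := rfl

/-- Pull-back from the factors. -/
def prI (I : κ → Fin n) (φ : MultilinearMap F (fun _ : κ => V) F) :
    MultilinearMap F (fun _ : κ => Fin n → V) F :=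
  φ.compLinearMap fun l => LinearMap.proj (I l)

theorem prI_apply (I : κ → Fin n) (φ : MultilinearMap F (fun _ : κ => V) F)
    (v : κ → Fin n → V) : prI I φ v = φ (fun l => v l (I l)) := rfl

theorem decomp (f : MultilinearMap F (fun _ : κ => Fin n → V) F) :
    f = ∑ I : κ → Fin n, prI I (rsI I f) := by
  refine MultilinearMap.ext fun v => ?_
  have h : v = fun l => ∑ i, Pi.single i (v l i) := funext fun l => (Finset.univ_sum_single _).symm
  conv_lhs => rw [h]
  rw [MultilinearMap.map_sum, MultilinearMap.sum_apply]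
  rfl

/-- The alternating form attached to a multilinear form. -/
def aI (I : κ → Fin n) (φ : MultilinearMap F (fun _ : κ => V) F) : (Fin n → V) [⋀^κ]→ₗ[F] F :=
  MultilinearMap.alternatization (prI I φ)

theorem aI_apply (I : κ → Fin n) (φ : MultilinearMap F (fun _ : κ => V) F)
    (v : κ → Fin n → V) : aI I φ v = ∑ σ : Equiv.Perm κ,
      ((Equiv.Perm.sign σ : ℤ) : F) * φ (fun l => v (σ l) (I l)) := by
  unfold aI
  rw [MultilinearMap.alternatization_apply]
  refine Finset.sum_congr rfl fun σ _ => ?_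
  rw [Units.smul_def, zsmul_eq_mul]
  rfl

theorem aI_add (I : κ → Fin n) (φ φ' : MultilinearMap F (fun _ : κ => V) F) :
    aI I (φ + φ') = aI I φ + aI I φ' := by
  apply AlternatingMap.ext
  intro v
  rw [AlternatingMap.add_apply, aI_apply, aI_apply, aI_apply, ← Finset.sum_add_distrib]
  refine Finset.sum_congr rfl fun σ _ => ?_
  rw [← mul_add]
  rfl

theorem aI_smul (I : κ → Fin n) (c : F) (φ : MultilinearMap F (fun _ : κ => V) F) :
    aI I (c • φ) = c • aI I φ := by
  apply AlternatingMap.ext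
  intro v
  rw [AlternatingMap.smul_apply, aI_apply, aI_apply, Finset.smul_sum]
  refine Finset.sum_congr rfl fun σ _ => ?_
  rw [MultilinearMap.smul_apply, smul_eq_mul, smul_eq_mul]
  ring

theorem aI_zero (I : κ → Fin n) : aI I (0 : MultilinearMap F (fun _ : κ => V) F) = 0 := by
  have h := aI_smul I (0 : F) (0 : MultilinearMap F (fun _ : κ => V) F)
  rwa [zero_smul, zero_smul] at h

theorem alt_decomp (f : (Fin n → V) [⋀^κ]→ₗ[F] F) :
    (Nat.factorial (Fintype.card κ) : F) • f =
      ∑ I : κ → Fin n, aI I (rsI I f.toMultilinearMap) := by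
  have h1 := congrArg MultilinearMap.alternatization (decomp f.toMultilinearMap)
  rw [map_sum] at h1
  have h2 : MultilinearMap.alternatization f.toMultilinearMap =
      Nat.factorial (Fintype.card κ) • f := AlternatingMap.coe_alternatization f
  rw [h2] at h1
  rw [Nat.cast_smul_eq_nsmul, h1]
  rfl

end gen

section real

variable {W T : Type} [AddCommGroup W] [Module ℚ W] [AddCommGroup T] [Module ℂ T] {per : W →+ T}
  {κ : Type} [Fintype κ] [DecidableEq κ] {n : ℕ}

theorem hodge_aI (I : κ → Fin n) {ψ : MultilinearMap ℚ (fun _ : κ => W) ℚ}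
    (h : IsHodgeTensor per ψ) : IsHodgeClass per (aI I ψ) := by
  obtain ⟨Ψ, h1, h2⟩ := h
  let Ψ' : MultilinearMap ℝ (fun _ : κ => Fin n → T) ℝ :=
    (MultilinearMap.alternatization (Ψ.compLinearMap fun l => LinearMap.proj (I l)) :
      (Fin n → T) [⋀^κ]→ₗ[ℝ] ℝ).toMultilinearMap
  have hΨ : ∀ u, Ψ' u = ∑ σ : Equiv.Perm κ,
      ((Equiv.Perm.sign σ : ℤ) : ℝ) * Ψ (fun l => u (σ l) (I l)) := by
    intro u
    change (MultilinearMap.alternatization (Ψ.compLinearMap fun l => LinearMap.proj (I l))) u = _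
    rw [MultilinearMap.alternatization_apply]
    refine Finset.sum_congr rfl fun σ _ => ?_
    rw [Units.smul_def, zsmul_eq_mul]
    rfl
  refine ⟨Ψ', fun v => ?_, fun z hz u => ?_⟩
  · rw [hΨ, aI_apply]
    push_cast
    refine Finset.sum_congr rfl fun σ _ => ?_
    rw [h1 fun l => v (σ l) (I l)]
  · rw [hΨ, hΨ]
    refine Finset.sum_congr rfl fun σ _ => ?_
    rw [h2 z hz fun l => u (σ l) (I l)]

theorem hodge_rsI (I : κ → Fin n) {ψ : (Fin n → W) [⋀^κ]→ₗ[ℚ] ℚ} (h : IsHodgeClass per ψ) :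
    IsHodgeTensor per (rsI I ψ.toMultilinearMap) := by
  obtain ⟨Ψ, h1, h2⟩ := h
  refine ⟨Ψ.compLinearMap fun l => LinearMap.single ℝ (fun _ => T) (I l), fun v => ?_,
    fun z hz u => ?_⟩
  · have h3 := h1 (fun l => Pi.single (I l) (v l))
    have h4 : (fun (l : κ) (i : Fin n) => per ((Pi.single (I l) (v l) : Fin n → W) i)) =
        fun l => (Pi.single (I l) (per (v l)) : Fin n → T) := by
      funext l i
      by_cases hi : i = I l
      · subst hi
        rw [Pi.single_eq_same, Pi.single_eq_same]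
      · rw [Pi.single_eq_of_ne hi, Pi.single_eq_of_ne hi, map_zero]
    rw [h4] at h3
    exact h3
  · have h3 := h2 z hz (fun l => Pi.single (I l) (u l))
    have h4 : (fun (l : κ) (i : Fin n) => z • ((Pi.single (I l) (u l) : Fin n → T) i)) =
        fun l => (Pi.single (I l) (z • u l) : Fin n → T) := by
      funext l i
      by_cases hi : i = I l
      · subst hi
        rw [Pi.single_eq_same, Pi.single_eq_same]
      · rw [Pi.single_eq_of_ne hi, Pi.single_eq_of_ne hi, smul_zero]
    rw [h4] at h3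
    exact h3

end real

section tate

variable {k : Type} [Field k] [CharZero k] {W T : Type} [AddCommGroup W] [Module ℚ W]
  [FiniteDimensional ℚ W] [AddCommGroup T] [Module ℂ T] {per : W →+ T}
  {Γ : Type} [Group Γ] {ρ : Representation k Γ (k ⊗[ℚ] W)} {χ : Γ →* k} {n j : ℕ}

theorem single_rho (i : Fin n) (s : Γ) (x : k ⊗[ℚ] W) (a : Fin n) :
    ρ s ((Pi.single i x : Fin n → k ⊗[ℚ] W) a) = (Pi.single i (ρ s x) : Fin n → k ⊗[ℚ] W) a := by
  by_cases hi : a = i
  · subst hi
    rw [Pi.single_eq_same, Pi.single_eq_same]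
  · rw [Pi.single_eq_of_ne hi, Pi.single_eq_of_ne hi, map_zero]

theorem tate_rsI (I : Fin j × Fin 2 → Fin n)
    {f : (Fin n → k ⊗[ℚ] W) [⋀^Fin j × Fin 2]→ₗ[k] k} (h : IsTateClass ρ χ j f) :
    IsTateTensor ρ χ j (rsI I f.toMultilinearMap) := by
  obtain ⟨Δ, hΔ, h1⟩ := h
  refine ⟨Δ, hΔ, fun s hs v => ?_⟩
  have h2 := h1 s hs (fun l => Pi.single (I l) (v l))
  have h3 : (fun (l : Fin j × Fin 2) (i : Fin n) =>
      ρ s ((Pi.single (I l) (v l) : Fin n → k ⊗[ℚ] W) i)) =
      fun l => (Pi.single (I l) (ρ s (v l)) : Fin n → k ⊗[ℚ] W) := by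
    funext l i
    exact single_rho _ _ _ _
  rw [h3] at h2
  exact h2

theorem tate_aI (I : Fin j × Fin 2 → Fin n)
    {φ : MultilinearMap k (fun _ : Fin j × Fin 2 => k ⊗[ℚ] W) k} (h : IsTateTensor ρ χ j φ) :
    IsTateClass ρ χ j (aI I φ) := by
  obtain ⟨Δ, hΔ, h1⟩ := h
  refine ⟨Δ, hΔ, fun s hs v => ?_⟩
  rw [aI_apply, aI_apply, Finset.mul_sum]
  refine Finset.sum_congr rfl fun σ _ => ?_
  rw [h1 s hs fun l => v (σ l) (I l)]
  ring

theorem tate_zero : IsTateClass ρ χ j (0 : (Fin n → k ⊗[ℚ] W) [⋀^Fin j × Fin 2]→ₗ[k] k) := by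
  refine ⟨⊤, inferInstance, fun s _ v => ?_⟩
  rw [AlternatingMap.zero_apply, AlternatingMap.zero_apply, mul_zero]

theorem tate_add {f g : (Fin n → k ⊗[ℚ] W) [⋀^Fin j × Fin 2]→ₗ[k] k}
    (hf : IsTateClass ρ χ j f) (hg : IsTateClass ρ χ j g) : IsTateClass ρ χ j (f + g) := by
  obtain ⟨Δ, hΔ, hf⟩ := hf
  obtain ⟨Δ', hΔ', hg⟩ := hg
  refine ⟨Δ ⊓ Δ', inferInstance, fun s hs v => ?_⟩
  rw [AlternatingMap.add_apply, AlternatingMap.add_apply, hf s hs.1, hg s hs.2, mul_add]

theorem tate_smul (c : k) {f : (Fin n → k ⊗[ℚ] W) [⋀^Fin j × Fin 2]→ₗ[k] k}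
    (hf : IsTateClass ρ χ j f) : IsTateClass ρ χ j (c • f) := by
  obtain ⟨Δ, hΔ, hf⟩ := hf
  refine ⟨Δ, hΔ, fun s hs v => ?_⟩
  rw [AlternatingMap.smul_apply, AlternatingMap.smul_apply, hf s hs, smul_eq_mul, smul_eq_mul]
  ring

theorem mem_tate {f : (Fin n → k ⊗[ℚ] W) [⋀^Fin j × Fin 2]→ₗ[k] k} :
    f ∈ tateSpace ρ χ n j ↔ IsTateClass ρ χ j f := by
  constructor
  · intro h
    unfold tateSpace at h
    induction h using Submodule.span_induction with
    | mem f h => exact h
    | zero => exact tate_zero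
    | add f g _ _ hf hg => exact tate_add hf hg
    | smul c f _ hf => exact tate_smul c hf
  · intro h
    exact Submodule.subset_span h

/-- Combinations of Hodge tensors give combinations of Hodge classes. -/
theorem aI_mem (I : Fin j × Fin 2 → Fin n)
    {φ : MultilinearMap k (fun _ : Fin j × Fin 2 => k ⊗[ℚ] W) k}
    (h : IsHodgeCombination per φ) : aI I φ ∈ hodgeSpace k per n j := by
  unfold IsHodgeCombination at h
  induction h using Submodule.span_induction with
  | mem φ h =>
    obtain ⟨ψ, h1, h2⟩ := h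
    refine Submodule.subset_span ⟨aI I ψ, hodge_aI I h1, fun v => ?_⟩
    rw [aI_apply, aI_apply]
    push_cast
    refine Finset.sum_congr rfl fun σ _ => ?_
    rw [h2 fun l => v (σ l) (I l)]
  | zero => rw [aI_zero]; exact Submodule.zero_mem _
  | add a b _ _ ha hb => rw [aI_add]; exact Submodule.add_mem _ ha hb
  | smul c a _ ha => rw [aI_smul]; exact Submodule.smul_mem _ _ ha

theorem rsI_comb (I : Fin j × Fin 2 → Fin n)
    {f : (Fin n → k ⊗[ℚ] W) [⋀^Fin j × Fin 2]→ₗ[k] k} (h : f ∈ hodgeSpace k per n j) :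
    IsHodgeCombination per (rsI I f.toMultilinearMap) := by
  unfold hodgeSpace at h
  induction h using Submodule.span_induction with
  | mem f h =>
    obtain ⟨ψ, h1, h2⟩ := h
    refine Submodule.subset_span ⟨rsI I ψ.toMultilinearMap, hodge_rsI I h1, fun v => ?_⟩
    have h3 := h2 (fun l => Pi.single (I l) (v l))
    have h4 : (fun (l : Fin j × Fin 2) (i : Fin n) =>
        (1 : k) ⊗ₜ[ℚ] ((Pi.single (I l) (v l) : Fin n → W) i)) =
        fun l => (Pi.single (I l) ((1 : k) ⊗ₜ[ℚ] v l) : Fin n → k ⊗[ℚ] W) := by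
      funext l i
      by_cases hi : i = I l
      · subst hi
        rw [Pi.single_eq_same, Pi.single_eq_same]
      · rw [Pi.single_eq_of_ne hi, Pi.single_eq_of_ne hi, tmul_zero]
    rw [h4] at h3
    exact h3
  | zero => exact Submodule.zero_mem _
  | add a b _ _ ha hb => exact Submodule.add_mem _ ha hb
  | smul c a _ ha => exact Submodule.smul_mem _ c ha

/-- If the restrictions are combinations of Hodge tensors, the form is a combination of Hodge
classes. -/
theorem mem_of_rsI {f : (Fin n → k ⊗[ℚ] W) [⋀^Fin j × Fin 2]→ₗ[k] k}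
    (h : ∀ I, IsHodgeCombination per (rsI I f.toMultilinearMap)) : f ∈ hodgeSpace k per n j := by
  have h1 := alt_decomp f
  have h2 : (Nat.factorial (Fintype.card (Fin j × Fin 2)) : k) ≠ 0 :=
    Nat.cast_ne_zero.2 (Nat.factorial_ne_zero _)
  have h3 : (Nat.factorial (Fintype.card (Fin j × Fin 2)) : k) • f ∈ hodgeSpace k per n j := by
    rw [h1]
    exact Submodule.sum_mem _ fun I _ => aI_mem I (h I)
  have h4 := Submodule.smul_mem _ (Nat.factorial (Fintype.card (Fin j × Fin 2)) : k)⁻¹ h3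
  rwa [smul_smul, inv_mul_cancel₀ h2, one_smul] at h4

/-- Hodge classes are Tate classes. -/
theorem hodge_le_tate (hD : Deligne per ρ χ) : hodgeSpace k per n j ≤ tateSpace ρ χ n j := by
  intro f hf
  have h2 : (Nat.factorial (Fintype.card (Fin j × Fin 2)) : k) ≠ 0 :=
    Nat.cast_ne_zero.2 (Nat.factorial_ne_zero _)
  have hT : ∀ I, IsTateTensor ρ χ j (rsI I f.toMultilinearMap) := by
    intro I
    have h1 := rsI_comb I hf
    generalize rsI I f.toMultilinearMap = φ at h1
    unfold IsHodgeCombination at h1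
    induction h1 using Submodule.span_induction with
    | mem φ h =>
      obtain ⟨ψ, h1, h2⟩ := h
      exact hD j ψ h1 φ h2
    | zero =>
      refine ⟨⊤, inferInstance, fun s _ v => ?_⟩
      change (0 : k) = χ s ^ j * 0
      rw [mul_zero]
    | add a b _ _ ha hb =>
      obtain ⟨Δ, hΔ, h1⟩ := ha
      obtain ⟨Δ', hΔ', h2⟩ := hb
      refine ⟨Δ ⊓ Δ', inferInstance, fun s hs v => ?_⟩
      change a _ + b _ = χ s ^ j * (a v + b v)
      rw [h1 s hs.1, h2 s hs.2, mul_add]
    | smul c a _ ha =>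
      obtain ⟨Δ, hΔ, h1⟩ := ha
      refine ⟨Δ, hΔ, fun s hs v => ?_⟩
      change c * a _ = χ s ^ j * (c * a v)
      rw [h1 s hs]
      ring
  have h3 : (Nat.factorial (Fintype.card (Fin j × Fin 2)) : k) • f ∈ tateSpace ρ χ n j := by
    rw [alt_decomp f]
    exact Submodule.sum_mem _ fun I _ => mem_tate.2 (tate_aI I (hT I))
  have h4 := Submodule.smul_mem _ (Nat.factorial (Fintype.card (Fin j × Fin 2)) : k)⁻¹ h3
  rwa [smul_smul, inv_mul_cancel₀ h2, one_smul] at h4

/-- The restriction of the alternating form attached to a form in four variables. -/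
theorem rs_aI (φ : MultilinearMap k (fun _ : Fin 2 × Fin 2 => k ⊗[ℚ] W) k) :
    rsI (⇑cc) (aI (⇑cc) φ).toMultilinearMap = φ := by
  refine MultilinearMap.ext fun v => ?_
  rw [rsI_apply]
  change aI (⇑cc) φ _ = _
  rw [aI_apply, Finset.sum_eq_single (1 : Equiv.Perm (Fin 2 × Fin 2))]
  · rw [Equiv.Perm.sign_one, Units.val_one, Int.cast_one, one_mul]
    congr 1
    funext l
    rw [Equiv.Perm.one_apply, Pi.single_eq_same]
  · intro σ _ hσ
    obtain ⟨l, hl⟩ : ∃ l, σ l ≠ l := by
      by_contra hcon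
      push Not at hcon
      exact hσ (Equiv.ext hcon)
    have h1 : φ (fun l => (Pi.single (cc (σ l)) (v (σ l)) : Fin 4 → k ⊗[ℚ] W) (cc l)) = 0 := by
      refine φ.map_coord_zero l ?_
      exact Pi.single_eq_of_ne (fun h => hl (cc.injective h).symm) _
    rw [h1, mul_zero]
  · intro h
    exact absurd (Finset.mem_univ _) h

end tate

end

end Pool.Agent.K1H15.MT
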