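import Mathlib
import Pool.Agent.Y114.RM.Final

/-!
# One tensor of degree four and the motivic Mumford-Tate conjecture: definitions
-/

set_option autoImplicit false

namespace Pool.Agent.K1H15.MT

open Module Polynomial Pool.Agent.Y114.TF Pool.Agent.Y114.RM

section general

variable {k : Type} [Field k] {V : Type} [AddCommGroup V] [Module k V] {Γ : Type} [Group Γ]
  (ρ : Representation k Γ V) (𝔤 : Submodule k (End k V))

/-- The tensor is fixed by the whole group `Γ`. -/
def FixedTensor {m : ℕ} (φ : Tensor k V m) : Prop :=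
  ∀ g v, φ (fun l => grp (ρ g) (ρ g⁻¹) (v l)) = φ v

/-- The operator kills all Tate tensors. -/
def KillsTate (X : End k V) : Prop :=
  ∀ (m : ℕ) (φ : Tensor k V m), TateTensor ρ φ → KillsTensor X φ

/-- The tensor is killed by `𝔤`. -/
def KilledTensor {m : ℕ} (φ : Tensor k V m) : Prop := ∀ X ∈ 𝔤, KillsTensor X φ

/-- The operators which commute with a subgroup of finite index of `Γ` commute with `𝔤`. -/
def CommutesWithEndos : Prop :=
  ∀ P : End k V, (∃ Δ : Subgroup Γ, Δ.FiniteIndex ∧ ∀ g ∈ Δ, ∀ v, P (ρ g v) = ρ g (P v)) →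
    ∀ X ∈ 𝔤, X * P = P * X

/-- The derived algebra of `𝔤` kills all Tate tensors. -/
def DerivedKills : Prop := ∀ X ∈ 𝔤, ∀ Y ∈ 𝔤, KillsTate ρ (X * Y - Y * X)

/-- The central elements of `𝔤` are sums of a multiple of `W` and of an operator which kills all
Tate tensors. -/
def CentreUpTo (W : End k V) : Prop :=
  ∀ X ∈ 𝔤, (∀ Y ∈ 𝔤, X * Y = Y * X) → ∃ c : k, KillsTate ρ (X - c • W)

end general

section family

variable {k : Type} [Field k] {ι : Type} {V : ι → Type} [∀ i, AddCommGroup (V i)]
  [∀ i, Module k (V i)] {Γ : Type} [Group Γ]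

/-- The operator which is the multiplication by `w i` on the `i`-th summand. -/
def weightOp (k : Type) [Field k] {ι : Type} (V : ι → Type) [∀ i, AddCommGroup (V i)]
    [∀ i, Module k (V i)] (w : ι → ℤ) : End k (∀ i, V i) :=
  LinearMap.pi fun i => (w i : k) • LinearMap.proj i

/-- The element `γ` acts on the `i`-th summand with a characteristic polynomial with rational
coefficients whose complex roots have the absolute value `q ^ (w i / 2)`. -/
def PureAt [CharZero k] [∀ i, FiniteDimensional k (V i)] (ρ : ∀ i, Representation k Γ (V i))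
    (w : ι → ℤ) (γ : Γ) (q : ℕ) : Prop :=
  1 < q ∧ ∃ P : ι → ℚ[X], (∀ i, (ρ i γ).charpoly = (P i).map (algebraMap ℚ k)) ∧
    ∀ i, ∀ a ∈ (P i).aroots ℂ, ‖a‖ ^ 2 = (q : ℝ) ^ w i

end family

section wrappers

variable {Γ : Type} [Group Γ] {ι : Type} {n : ι → ℕ} {ℓ : ℕ} [Fact ℓ.Prime]
  (ρ : Reps Γ n ℓ) (𝔤 : EndSpace n ℓ)

/-- Tensors of degree `m` on the direct sum of the spaces `ℚ_ℓ ^ (n i)` and its dual space. -/
def TensorOf {ι : Type} (n : ι → ℕ) (ℓ : ℕ) [Fact ℓ.Prime] (m : ℕ) : Type :=
  Tensor ℚ_[ℓ] (∀ i, Fin (n i) → ℚ_[ℓ]) m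

/-- The tensor is fixed by the whole group `Γ` (see `FixedTensor`). -/
def IsFixed {m : ℕ} (φ : TensorOf n ℓ m) : Prop := FixedTensor (sumRep ρ) φ

/-- The tensor is motivated: it is killed by the Lie algebra `𝔤` of the motivic Galois group (see
`KilledTensor`). -/
def IsMotivated {m : ℕ} (φ : TensorOf n ℓ m) : Prop :=
  KilledTensor (k := ℚ_[ℓ]) (V := ∀ i, Fin (n i) → ℚ_[ℓ]) 𝔤 φ

/-- The Tate classes in `End(M)` are motivated: the operators which commute with a subgroup of finite
index of `Γ` commute with `𝔤` (see `CommutesWithEndos`). -/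
def TateEndosMotivated : Prop := CommutesWithEndos (sumRep ρ) 𝔤

/-- The derived algebra of `𝔤` kills all Tate tensors: it is contained in the Lie algebra of the
`ℓ`-adic monodromy group (see `DerivedKills`). -/
def DerivedKillsTate : Prop := DerivedKills (sumRep ρ) 𝔤

/-- The conjecture is known for the centre of the motivic Galois group, up to the weight: every
central element of `𝔤` is the sum of a multiple of the weight operator and of an operator which
kills all Tate tensors (see `CentreUpTo`). -/
def CentreKnown (w : ι → ℤ) : Prop :=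
  CentreUpTo (sumRep ρ) 𝔤 (weightOp ℚ_[ℓ] (fun i => Fin (n i) → ℚ_[ℓ]) w)

/-- The element `γ` is pure with the weights `w i` (see `PureAt`), for example a Frobenius element at
a place with residue field of `q` elements. -/
def PureElement (w : ι → ℤ) (γ : Γ) (q : ℕ) : Prop := PureAt ρ w γ q

end wrappers

end Pool.Agent.K1H15.MT
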