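import Mathlib
import Pool.Agent.H204R3.GP.Defs

/-!
# The sum of a semisimple representation and its dual is semisimple
-/

set_option linter.unusedSectionVars false

namespace Pool.Agent.K1H15.MT

open Module

variable {k : Type} [Field k] {V : Type} [AddCommGroup V] [Module k V] {Γ : Type} [Group Γ]

/-- Stable complements for a set of operators. -/
def SsOn {A : Type} [AddCommGroup A] [Module k A] (S : Set (End k A)) : Prop :=
  ∀ U : Submodule k A, (∀ T ∈ S, ∀ u ∈ U, T u ∈ U) →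
    ∃ U' : Submodule k A, (∀ T ∈ S, ∀ u ∈ U', T u ∈ U') ∧ IsCompl U U'

/-- Sums. -/
theorem ss_prod {A B I : Type} [AddCommGroup A] [Module k A] [AddCommGroup B] [Module k B]
    (f : I → End k A) (g : I → End k B) (hA : SsOn (Set.range f)) (hB : SsOn (Set.range g)) :
    SsOn (Set.range fun i => (f i).prodMap (g i)) := by
  intro U hU
  have hU' : ∀ i a b, (a, b) ∈ U → (f i a, g i b) ∈ U := fun i a b h => hU _ ⟨i, rfl⟩ _ h
  obtain ⟨C1, hC1, h1⟩ := hA (U.map (LinearMap.fst k A B)) (by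
    rintro _ ⟨i, rfl⟩ _ ⟨⟨a, b⟩, hab, rfl⟩
    exact ⟨_, hU' i a b hab, rfl⟩)
  obtain ⟨C2, hC2, h2⟩ := hB (U.comap (LinearMap.inr k A B)) (by
    rintro _ ⟨i, rfl⟩ b hb
    have h3 := hU' i 0 b hb
    rw [map_zero] at h3
    exact h3)
  refine ⟨C1.prod C2, ?_, ?_, ?_⟩
  · rintro _ ⟨i, rfl⟩ ⟨a, b⟩ ⟨ha, hb⟩
    exact ⟨hC1 _ ⟨i, rfl⟩ a ha, hC2 _ ⟨i, rfl⟩ b hb⟩
  · rw [Submodule.disjoint_def]
    rintro ⟨a, b⟩ hab ⟨ha, hb⟩
    have ha0 : a = 0 := (Submodule.disjoint_def.1 h1.disjoint) a ⟨_, hab, rfl⟩ ha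
    subst ha0
    have hb0 : b = 0 := (Submodule.disjoint_def.1 h2.disjoint) b hab hb
    rw [hb0]
    rfl
  · rw [codisjoint_iff, eq_top_iff]
    rintro ⟨a, b⟩ -
    have ha : a ∈ U.map (LinearMap.fst k A B) ⊔ C1 := by
      rw [h1.sup_eq_top]
      trivial
    obtain ⟨_, ⟨⟨u1, b'⟩, hu1, rfl⟩, c1, hc1, hac⟩ := Submodule.mem_sup.1 ha
    have hb : b - b' ∈ U.comap (LinearMap.inr k A B) ⊔ C2 := by
      rw [h2.sup_eq_top]
      trivial
    obtain ⟨u2, hu2, c2, hc2, hbc⟩ := Submodule.mem_sup.1 hb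
    refine Submodule.mem_sup.2 ⟨(u1, b') + (0, u2), Submodule.add_mem _ hu1 hu2, (c1, c2),
      ⟨hc1, hc2⟩, ?_⟩
    have e1 : u1 + c1 = a := hac
    have e2 : b' + u2 + c2 = b := by
      rw [add_assoc, hbc]
      abel
    exact Prod.ext (by change u1 + 0 + c1 = a; rw [add_zero, e1]) e2

/-- Duals. -/
theorem ss_dual [FiniteDimensional k V] {I : Type} (f : I → End k V)
    (hV : SsOn (Set.range f)) : SsOn (Set.range fun i => (f i).dualMap) := by
  intro U hU
  obtain ⟨C, hC, h1⟩ := hV U.dualCoannihilator (by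
    rintro _ ⟨i, rfl⟩ v hv
    rw [Submodule.mem_dualCoannihilator] at hv ⊢
    intro φ hφ
    exact hv _ (hU _ ⟨i, rfl⟩ φ hφ))
  refine ⟨C.dualAnnihilator, ?_, ?_⟩
  · rintro _ ⟨i, rfl⟩ φ hφ
    rw [Submodule.mem_dualAnnihilator] at hφ ⊢
    intro w hw
    exact hφ _ (hC _ ⟨i, rfl⟩ w hw)
  · have h2 : U = U.dualCoannihilator.dualAnnihilator :=
      (Subspace.dualCoannihilator_dualAnnihilator_eq).symm
    constructor
    · rw [Submodule.disjoint_def]
      intro φ hφ hφ'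
      apply LinearMap.ext
      intro v
      have hv : v ∈ U.dualCoannihilator ⊔ C := by
        rw [h1.sup_eq_top]
        trivial
      obtain ⟨a, ha, c, hc, rfl⟩ := Submodule.mem_sup.1 hv
      rw [map_add, (Submodule.mem_dualCoannihilator a).1 ha φ hφ,
        (Submodule.mem_dualAnnihilator φ).1 hφ' c hc, add_zero, LinearMap.zero_apply]
    · rw [codisjoint_iff, eq_top_iff]
      intro φ _
      let p : V →ₗ[k] V := U.dualCoannihilator.subtype ∘ₗ
        Submodule.linearProjOfIsCompl U.dualCoannihilator C h1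
      have hp1 : ∀ x ∈ U.dualCoannihilator, p x = x := fun x hx =>
        congrArg Subtype.val (Submodule.linearProjOfIsCompl_apply_left h1 ⟨x, hx⟩)
      have hp2 : ∀ x ∈ C, p x = 0 := fun x hx =>
        congrArg Subtype.val (Submodule.linearProjOfIsCompl_apply_right h1 ⟨x, hx⟩)
      refine Submodule.mem_sup.2 ⟨φ - φ ∘ₗ p, ?_, φ ∘ₗ p, ?_, by abel⟩
      · rw [h2, Submodule.mem_dualAnnihilator]
        intro w hw
        rw [LinearMap.sub_apply, LinearMap.comp_apply, hp1 w hw, sub_self]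
      · rw [Submodule.mem_dualAnnihilator]
        intro w hw
        rw [LinearMap.comp_apply, hp2 w hw, map_zero]

end Pool.Agent.K1H15.MT
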