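import Mathlib
import Pool.Agent.K1H15.MT.SsDual
import Pool.Agent.K1H15.MT.Desc
import Pool.Agent.Y114.RM.Defs

/-!
# One tensor of degree four on a semisimple representation
-/

set_option linter.unusedSectionVars false

namespace Pool.Agent.K1H15.MT

open Module Finset Function Pool.Agent.H204R3.SP Pool.Agent.H204R3.GP
  Pool.Agent.K1H13.N Pool.Agent.W516.FT Pool.Agent.Y114.RM

noncomputable section

variable {k : Type} [Field k] {V : Type} [AddCommGroup V] [Module k V]
  {Γ : Type} [Group Γ] (ρ : Representation k Γ V)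

/-- The representation on the sum of `V` and its dual space. -/
def R2 : Representation k Γ (V × Dual k V) where
  toFun g := grp (ρ g) (ρ g⁻¹)
  map_one' := by
    apply LinearMap.ext
    rintro ⟨u, f⟩
    refine Prod.ext ?_ ?_
    · change ρ 1 u = u
      rw [map_one]
      rfl
    · apply LinearMap.ext
      intro x
      change f (ρ 1⁻¹ x) = f x
      rw [inv_one, map_one]
      rfl
  map_mul' g h := by
    apply LinearMap.ext
    rintro ⟨u, f⟩
    refine Prod.ext ?_ ?_
    · change ρ (g * h) u = ρ g (ρ h u)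
      rw [map_mul]
      rfl
    · apply LinearMap.ext
      intro x
      change f (ρ (g * h)⁻¹ x) = f (ρ h⁻¹ (ρ g⁻¹ x))
      rw [mul_inv_rev, map_mul]
      rfl

theorem R2_apply (g : Γ) (u : V) (f : Dual k V) : R2 ρ g (u, f) = (ρ g u, f ∘ₗ ρ g⁻¹) := rfl

/-- The canonical pairing. -/
def om : (V × Dual k V) →ₗ[k] (V × Dual k V) →ₗ[k] k :=
  LinearMap.mk₂ k (fun x y => x.2 y.1 + y.2 x.1)
    (fun x x' y => by
      change (x.2 + x'.2) y.1 + y.2 (x.1 + x'.1) = _
      rw [LinearMap.add_apply, map_add]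
      ring)
    (fun c x y => by
      change (c • x.2) y.1 + y.2 (c • x.1) = _
      rw [LinearMap.smul_apply, map_smul, smul_eq_mul, smul_eq_mul, smul_eq_mul]
      ring)
    (fun x y y' => by
      change x.2 (y.1 + y'.1) + (y.2 + y'.2) x.1 = _
      rw [LinearMap.add_apply, map_add]
      ring)
    (fun c x y => by
      change x.2 (c • y.1) + (c • y.2) x.1 = _
      rw [LinearMap.smul_apply, map_smul, smul_eq_mul, smul_eq_mul, smul_eq_mul]
      ring)

theorem om_apply (x y : V × Dual k V) : om x y = x.2 y.1 + y.2 x.1 := rfl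

theorem om_nondeg (x : V × Dual k V) (h : ∀ y, om x y = 0) : x = 0 := by
  refine Prod.ext ?_ ?_
  · rw [Prod.fst_zero, ← Module.forall_dual_apply_eq_zero_iff k]
    intro f
    have h1 := h (0, f)
    rw [om_apply, map_zero, zero_add] at h1
    exact h1
  · apply LinearMap.ext
    intro v
    have h1 := h (v, 0)
    rw [om_apply, LinearMap.zero_apply, add_zero] at h1
    exact h1

theorem ri (g : Γ) (x : V) : ρ g⁻¹ (ρ g x) = x := by
  rw [← Module.End.mul_apply, ← map_mul, inv_mul_cancel, map_one]
  rfl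

theorem om_inv (g : Γ) (x y : V × Dual k V) :
    om (R2 ρ g x) (R2 ρ g y) = (1 : Γ →* k) g * om x y := by
  change x.2 (ρ g⁻¹ (ρ g y.1)) + y.2 (ρ g⁻¹ (ρ g x.1)) = 1 * _
  rw [ri, ri, one_mul, om_apply]

theorem lie_skew (X : End k V) (x y : V × Dual k V) :
    om (lie X x) y + om x (lie X y) = 0 := by
  change (-(x.2 (X y.1)) + y.2 (X x.1)) + (x.2 (X y.1) + -(y.2 (X x.1))) = 0
  ring

/-- `lie` as a linear map. -/
def lieL : End k V →ₗ[k] End k (V × Dual k V) where
  toFun := lie
  map_add' X Y := by
    apply LinearMap.ext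
    rintro ⟨u, f⟩
    refine Prod.ext rfl ?_
    apply LinearMap.ext
    intro x
    change -(f ((X + Y) x)) = -(f (X x)) + -(f (Y x))
    rw [LinearMap.add_apply, map_add]
    ring
  map_smul' c X := by
    apply LinearMap.ext
    rintro ⟨u, f⟩
    refine Prod.ext rfl ?_
    apply LinearMap.ext
    intro x
    change -(f ((c • X) x)) = c • -(f (X x))
    rw [LinearMap.smul_apply, map_smul, smul_neg]

theorem lieL_apply (X : End k V) : lieL X = lie X := rfl

theorem lie_fst (X : End k V) (x : V × Dual k V) : (lie X x).1 = X x.1 := rfl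

theorem lie_snd (X : End k V) (x : V × Dual k V) (v : V) : (lie X x).2 v = -(x.2 (X v)) := rfl

theorem lie_br (X Y : End k V) : lie X * lie Y - lie Y * lie X = lie (X * Y - Y * X) := by
  apply LinearMap.ext
  rintro ⟨u, f⟩
  refine Prod.ext rfl ?_
  apply LinearMap.ext
  intro x
  change - -(f (Y (X x))) - - -(f (X (Y x))) = -(f (X (Y x) - Y (X x)))
  rw [map_sub]
  ring

/-- The operators which kill all Tate tensors. -/
def LT : Submodule k (End k V) := (lieT (R2 ρ) 1).comap lieL

theorem mem_LT {X : End k V} : X ∈ LT ρ ↔ lie X ∈ lieT (R2 ρ) 1 := Iff.rfl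

variable {ρ}

section kills

variable {X' : Type} [AddCommGroup X'] [Module k X']

theorem kills_dom {S S' : Type} [Fintype S] [DecidableEq S] [Fintype S'] [DecidableEq S']
    (e : S ≃ S') (φ : MultilinearMap k (fun _ : S => X') k) (Z : End k X') :
    Kills Z (φ.domDomCongr e) ↔ Kills Z φ := by
  constructor
  · intro h v
    have h1 := h (fun s => v (e.symm s))
    rw [← Equiv.sum_comp e] at h1
    rw [← h1]
    refine Finset.sum_congr rfl fun j _ => ?_
    rw [MultilinearMap.domDomCongr_apply]
    congr 1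
    funext l
    by_cases hl : l = j
    · subst hl
      rw [update_self, update_self, Equiv.symm_apply_apply]
    · rw [update_of_ne hl, update_of_ne (e.injective.ne hl), Equiv.symm_apply_apply]
  · intro h v
    have h1 := h (fun s => v (e s))
    rw [← Equiv.sum_comp e, ← h1]
    refine Finset.sum_congr rfl fun j _ => ?_
    rw [MultilinearMap.domDomCongr_apply]
    congr 1
    funext l
    by_cases hl : l = j
    · subst hl
      rw [update_self, update_self]
    · rw [update_of_ne hl, update_of_ne (e.injective.ne hl)]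

variable [CharZero k]

theorem up_same {m : ℕ} (v : Fin m × Fin 2 → X') (i : Fin m) (ε : Fin 2) (x : X') :
    (fun i' => update v (i, ε) x (i', ε)) = update (fun i' => v (i', ε)) i x := by
  funext i'
  by_cases h : i' = i
  · subst h
    rw [update_self, update_self]
  · rw [update_of_ne h, update_of_ne fun h2 => h (Prod.mk.inj h2).1]

theorem up_ne {m : ℕ} (v : Fin m × Fin 2 → X') (i : Fin m) {ε ε' : Fin 2} (hε : ε' ≠ ε) (x : X') :
    (fun i' => update v (i, ε) x (i', ε')) = fun i' => v (i', ε') := by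
  funext i'
  rw [update_of_ne fun h2 => hε (Prod.mk.inj h2).2]

/-- The square of a form. -/
def sq {m : ℕ} (φ : MultilinearMap k (fun _ : Fin m => X') k) :
    MultilinearMap k (fun _ : Fin m × Fin 2 => X') k where
  toFun v := φ (fun i => v (i, 0)) * φ (fun i => v (i, 1))
  map_update_add' := by
    intro inst v l x y
    obtain rfl : inst = instDecidableEqProd := Subsingleton.elim _ _
    obtain ⟨i, ε⟩ := l
    fin_cases ε
    · change φ (fun i' => update v (i, 0) (x + y) (i', 0)) *
          φ (fun i' => update v (i, 0) (x + y) (i', 1)) =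
        φ (fun i' => update v (i, 0) x (i', 0)) * φ (fun i' => update v (i, 0) x (i', 1)) +
        φ (fun i' => update v (i, 0) y (i', 0)) * φ (fun i' => update v (i, 0) y (i', 1))
      rw [up_same, up_same, up_same, up_ne v i (by decide : (1 : Fin 2) ≠ 0),
        up_ne v i (by decide : (1 : Fin 2) ≠ 0), up_ne v i (by decide : (1 : Fin 2) ≠ 0),
        φ.map_update_add, add_mul]
    · change φ (fun i' => update v (i, 1) (x + y) (i', 0)) *
          φ (fun i' => update v (i, 1) (x + y) (i', 1)) =
        φ (fun i' => update v (i, 1) x (i', 0)) * φ (fun i' => update v (i, 1) x (i', 1)) +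
        φ (fun i' => update v (i, 1) y (i', 0)) * φ (fun i' => update v (i, 1) y (i', 1))
      rw [up_same, up_same, up_same, up_ne v i (by decide : (0 : Fin 2) ≠ 1),
        up_ne v i (by decide : (0 : Fin 2) ≠ 1), up_ne v i (by decide : (0 : Fin 2) ≠ 1),
        φ.map_update_add, mul_add]
  map_update_smul' := by
    intro inst v l c x
    obtain rfl : inst = instDecidableEqProd := Subsingleton.elim _ _
    obtain ⟨i, ε⟩ := l
    fin_cases ε
    · change φ (fun i' => update v (i, 0) (c • x) (i', 0)) *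
          φ (fun i' => update v (i, 0) (c • x) (i', 1)) =
        c • (φ (fun i' => update v (i, 0) x (i', 0)) * φ (fun i' => update v (i, 0) x (i', 1)))
      rw [up_same, up_same, up_ne v i (by decide : (1 : Fin 2) ≠ 0),
        up_ne v i (by decide : (1 : Fin 2) ≠ 0), φ.map_update_smul, smul_mul_assoc]
    · change φ (fun i' => update v (i, 1) (c • x) (i', 0)) *
          φ (fun i' => update v (i, 1) (c • x) (i', 1)) =
        c • (φ (fun i' => update v (i, 1) x (i', 0)) * φ (fun i' => update v (i, 1) x (i', 1)))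
      rw [up_same, up_same, up_ne v i (by decide : (0 : Fin 2) ≠ 1),
        up_ne v i (by decide : (0 : Fin 2) ≠ 1), φ.map_update_smul, mul_smul_comm]

theorem sq_apply {m : ℕ} (φ : MultilinearMap k (fun _ : Fin m => X') k)
    (v : Fin m × Fin 2 → X') : sq φ v = φ (fun i => v (i, 0)) * φ (fun i => v (i, 1)) := rfl

theorem kills_sq [CharZero k] {m : ℕ} {φ : MultilinearMap k (fun _ : Fin m => X') k}
    {Z : End k X'} (h : Kills Z (sq φ)) : Kills Z φ := by
  have h1 : ∀ a b : Fin m → X', (∑ i, φ (update a i (Z (a i)))) * φ b +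
      φ a * ∑ i, φ (update b i (Z (b i))) = 0 := by
    intro a b
    have h2 := h (fun l => if l.2 = 0 then a l.1 else b l.1)
    rw [Fintype.sum_prod_type] at h2
    rw [← h2, Finset.sum_mul, Finset.mul_sum, ← Finset.sum_add_distrib]
    refine Finset.sum_congr rfl fun i _ => ?_
    rw [Fin.sum_univ_two, sq_apply, sq_apply, up_same, up_same,
      up_ne _ i (by decide : (1 : Fin 2) ≠ 0), up_ne _ i (by decide : (0 : Fin 2) ≠ 1)]
    simp
  intro a
  by_contra hne
  have h2 := h1 a a
  have h3 : φ a = 0 := by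
    have h4 : (2 : k) * ((∑ i, φ (update a i (Z (a i)))) * φ a) = 0 := by linear_combination h2
    exact ((mul_eq_zero.1 ((mul_eq_zero.1 h4).resolve_left two_ne_zero)).resolve_left hne)
  apply hne
  have h5 : ∀ b, φ b = 0 := by
    intro b
    have h6 := h1 a b
    rw [h3, zero_mul, add_zero] at h6
    exact (mul_eq_zero.1 h6).resolve_left hne
  exact Finset.sum_eq_zero fun i _ => h5 _

end kills

variable [CharZero k]

theorem mem_LT_iff {X : End k V} : X ∈ LT ρ ↔ ∀ (m : ℕ) (φ : Tensor k V m),
    TateTensor ρ φ → KillsTensor X φ := by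
  constructor
  · intro h m φ hφ
    obtain ⟨Δ, hΔ, h1⟩ := hφ
    exact kills_sq (h m (sq φ) ⟨Δ, hΔ, fun s hs v => by
      change φ (fun i => grp (ρ s) (ρ s⁻¹) (v (i, 0))) * φ (fun i => grp (ρ s) (ρ s⁻¹) (v (i, 1))) =
        1 ^ m * _
      rw [h1 s hs, h1 s hs, one_pow, one_mul]
      rfl⟩)
  · intro h m φ hφ
    obtain ⟨Δ, hΔ, h1⟩ := hφ
    have h2 := h (m * 2) (φ.domDomCongr finProdFinEquiv) ⟨Δ, hΔ, fun s hs v => by
      have h3 := h1 s hs fun l => v (finProdFinEquiv l)
      change φ (fun l => R2 ρ s (v (finProdFinEquiv l))) = φ (fun l => v (finProdFinEquiv l))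
      rw [h3]
      change 1 ^ m * _ = _
      rw [one_pow, one_mul]⟩
    exact (kills_dom finProdFinEquiv φ _).1 h2

/-- The elements of the Lie algebra are of the form `lie X`. -/
theorem eq_lie {Z : End k (V × Dual k V)} (hZ : Z ∈ lieT (R2 ρ) 1) :
    Z = lie (LinearMap.fst k V (Dual k V) ∘ₗ Z ∘ₗ LinearMap.inl k V (Dual k V)) := by
  have hc := lie_comm (om_nondeg (k := k) (V := V)) (om_inv ρ)
    (P := LinearMap.inl k V (Dual k V) ∘ₗ LinearMap.fst k V (Dual k V))
    ⟨⊤, inferInstance, fun s _ x => by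
      refine Prod.ext rfl ?_
      apply LinearMap.ext
      intro v
      rfl⟩ hZ
  have hs := lieT_sp (R2 ρ) 1 (om (k := k) (V := V)) (om_inv ρ) hZ
  have h1 : ∀ u : V, (Z (u, 0)).2 = 0 := by
    intro u
    have h2 := congrArg Prod.snd (hc (u, 0))
    exact h2
  have h3 : ∀ f : Dual k V, (Z (0, f)).1 = 0 := by
    intro f
    have h2 := congrArg Prod.fst (hc (0, f))
    change (Z (0, 0)).1 = (Z (0, f)).1 at h2
    rw [← h2]
    have h4 : Z ((0 : V), (0 : Dual k V)) = 0 := map_zero Z
    rw [h4]
    rfl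
  apply LinearMap.ext
  rintro ⟨u, f⟩
  have h4 : Z (u, f) = Z (u, 0) + Z (0, f) := by
    rw [← map_add]
    congr 1
    exact Prod.ext (add_zero u).symm (zero_add f).symm
  refine Prod.ext ?_ ?_
  · rw [h4]
    change (Z (u, 0)).1 + (Z (0, f)).1 = (Z (u, 0)).1
    rw [h3, add_zero]
  · apply LinearMap.ext
    intro v
    rw [h4]
    change ((Z (u, 0)).2 + (Z (0, f)).2) v = -(f ((Z (v, 0)).1))
    rw [h1, zero_add]
    have h5 := hs (0, f) (v, 0)
    rw [om_apply, om_apply] at h5
    change (Z (0, f)).2 v + (0 : Dual k V) ((Z (0, f)).1) + (f ((Z (v, 0)).1) +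
      (Z (v, 0)).2 0) = 0 at h5
    rw [LinearMap.zero_apply, map_zero, add_zero, add_zero] at h5
    exact eq_neg_of_add_eq_zero_left h5

end

end Pool.Agent.K1H15.MT
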