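import Mathlib
import Pool.Agent.K1H15.MT.Mot

/-!
# One tensor of degree four on a semisimple representation: the main theorem
-/

set_option linter.unusedSectionVars false

namespace Pool.Agent.K1H15.MT

open Module Finset Function Pool.Agent.H204R3.SP Pool.Agent.H204R3.GP
  Pool.Agent.K1H13.N Pool.Agent.W516.FT Pool.Agent.Y114.RM Pool.Agent.W516

noncomputable section

variable {k : Type} [Field k] [CharZero k] {V : Type} [AddCommGroup V] [Module k V]
  [FiniteDimensional k V] {Γ : Type} [Group Γ] {ρ : Representation k Γ V}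

/-- The sum of the representation and its dual is semisimple. -/
theorem ss_R2 (hss : FiniteIndexSemisimple ρ) : FiniteIndexSemisimple (R2 ρ) := by
  intro Δ hΔ U hU
  have h1 : SsOn (Set.range fun g : Δ => ρ g) := by
    intro U hU
    obtain ⟨U', h1, h2⟩ := hss Δ hΔ U (fun s hs u hu => hU _ ⟨⟨s, hs⟩, rfl⟩ u hu)
    refine ⟨U', ?_, h2⟩
    rintro _ ⟨g, rfl⟩ u hu
    exact h1 g g.2 u hu
  have h2 : SsOn (Set.range fun g : Δ => ρ (g⁻¹ : Δ)) := by
    intro U hU
    obtain ⟨U', h3, h4⟩ := h1 U (by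
      rintro _ ⟨g, rfl⟩ u hu
      have h5 := hU _ ⟨g⁻¹, rfl⟩ u hu
      change ρ ((g⁻¹⁻¹ : Δ) : Γ) u ∈ U at h5
      rw [inv_inv] at h5
      exact h5)
    refine ⟨U', ?_, h4⟩
    rintro _ ⟨g, rfl⟩ u hu
    exact h3 _ ⟨g⁻¹, rfl⟩ u hu
  have h3 := ss_prod (fun g : Δ => ρ g) _ h1 (ss_dual (fun g : Δ => ρ (g⁻¹ : Δ)) h2)
  obtain ⟨U', h4, h5⟩ := h3 U (by
    rintro _ ⟨g, rfl⟩ u hu
    exact hU g g.2 u hu)
  exact ⟨U', fun s hs u hu => h4 _ ⟨⟨s, hs⟩, rfl⟩ u hu, h5⟩

/-- An operator on `V`, acting as zero on the dual space. -/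
def ex (C : End k V) : End k (V × Dual k V) :=
  LinearMap.inl k V (Dual k V) ∘ₗ C ∘ₗ LinearMap.fst k V (Dual k V)

theorem ex_comm_iff {C X : End k V} : lie X * ex C = ex C * lie X ↔ X * C = C * X := by
  constructor
  · intro h
    apply LinearMap.ext
    intro u
    exact congrArg (fun f : End k (V × Dual k V) => (f (u, 0)).1) h
  · intro h
    apply LinearMap.ext
    rintro ⟨u, f⟩
    refine Prod.ext (congrArg (fun f : End k V => f u) h) ?_
    apply LinearMap.ext
    intro v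
    change -((0 : Dual k V) (X v)) = (0 : Dual k V) v
    rw [LinearMap.zero_apply, LinearMap.zero_apply, neg_zero]

theorem ex_almost {C : End k V} : AlmostEquivariant (R2 ρ) (ex C) ↔ AlmostEquivariant ρ C := by
  constructor
  · rintro ⟨Δ, hΔ, h⟩
    refine ⟨Δ, hΔ, fun s hs v => ?_⟩
    exact congrArg Prod.fst (h s hs (v, 0))
  · rintro ⟨Δ, hΔ, h⟩
    refine ⟨Δ, hΔ, fun s hs v => Prod.ext (h s hs v.1) ?_⟩
    apply LinearMap.ext
    intro w
    rfl

/-- Almost equivariant operators commute with the Lie algebra. -/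
theorem comm_of_almost {C : End k V} (hC : AlmostEquivariant ρ C) {X : End k V}
    (hX : X ∈ LT ρ) : X * C = C * X := by
  rw [← ex_comm_iff]
  exact LinearMap.ext fun v => lie_comm (om_nondeg (k := k) (V := V)) (om_inv ρ)
    (ex_almost.2 hC) hX v

/-- The commutant of the Lie algebra. -/
theorem almost_of_comm_LT (hss : FiniteIndexSemisimple ρ)
    (hb : BddRoots (bcr (R2 ρ) (AlgebraicClosure k))) {C : End k V}
    (hC : ∀ X ∈ LT ρ, X * C = C * X) : AlmostEquivariant ρ C := by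
  rw [← ex_almost]
  refine almost_of_commute (χ := 1) (ss_R2 hss) hb fun Z hZ => ?_
  rw [eq_lie hZ, ex_comm_iff]
  apply hC
  rw [mem_LT, ← eq_lie hZ]
  exact hZ

theorem LT_br {X Y : End k V} (hX : X ∈ LT ρ) (hY : Y ∈ LT ρ) : X * Y - Y * X ∈ LT ρ := by
  rw [mem_LT, ← lie_br]
  exact lieT_bracket (R2 ρ) 1 hX hY

theorem lieL_sub (X Y : End k V) : lie (X - Y) = lie X - lie Y := map_sub (lieL (k := k)) X Y

/-- **The main theorem.** There is a tensor of degree four, fixed by the group, such that the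
operators which kill it are the sums of the elements of the Lie algebra of the Tate tensors and of the
operators which commute with a subgroup of finite index. -/
theorem exists_decisive_tensor (hss : FiniteIndexSemisimple ρ)
    (hb : BddRoots (bcr (R2 ρ) (AlgebraicClosure k))) :
    ∃ Θ : Tensor k V 4, (∀ g v, Θ (fun l => grp (ρ g) (ρ g⁻¹) (v l)) = Θ v) ∧
      (∀ X : End k V, KillsTensor X Θ → ∃ Y ∈ LT ρ, AlmostEquivariant ρ (X - Y)) ∧
      ∀ X : End k V, (∀ Z ∈ LT ρ, X * Z - Z * X ∈ LT ρ) → KillsTensor X Θ := by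
  have hnt := traceNondeg (ρ := R2 ρ) (χ := 1) (om_nondeg (k := k) (V := V)) (om_inv ρ) (ss_R2 hss)
  let Θ' := KC2.casimir (lieT (R2 ρ) 1) hnt (om (k := k) (V := V))
  let e : Fin 2 × Fin 2 ≃ Fin 4 := (finProdFinEquiv : Fin 2 × Fin 2 ≃ Fin (2 * 2))
  refine ⟨Θ'.domDomCongr e, fun g v => ?_, ?_⟩
  · have h1 := KC2.casimir_inv (lieT (R2 ρ) 1) hnt (om (k := k) (V := V)) (g := R2 ρ g)
      (g' := R2 ρ g⁻¹) (χ := 1) (by rw [← map_mul, inv_mul_cancel, map_one])
      (by rw [← map_mul, mul_inv_cancel, map_one]) (fun u v => om_inv ρ g u v)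
      (fun X hX => lieT_conj (R2 ρ) 1 g hX) (fun X hX => by
        have h1 := lieT_conj (R2 ρ) 1 g⁻¹ hX
        rwa [inv_inv] at h1) (fun l => v (e l))
    rw [one_pow, one_mul] at h1
    exact h1
  · have h0 : ∀ X, KillsTensor X (Θ'.domDomCongr e) ↔ Kills (lie X) Θ' := fun X =>
      kills_dom e Θ' (lie X)
    constructor
    · intro X hk
      rw [h0] at hk
      obtain ⟨Y', hY', hc⟩ := KC2.mem_of_kills_casimir (lieT (R2 ρ) 1) hnt (om (k := k) (V := V))
        (fun X hX Y hY => lieT_bracket (R2 ρ) 1 hX hY) om_nondeg (lie_skew X) hk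
      let Y : End k V := LinearMap.fst k V (Dual k V) ∘ₗ Y' ∘ₗ LinearMap.inl k V (Dual k V)
      have hYY : Y' = lie Y := eq_lie hY'
      refine ⟨Y, by rw [mem_LT, ← hYY]; exact hY', ?_⟩
      refine almost_of_comm_LT hss hb fun A hA => ?_
      have h1 := hc (lie A) hA
      rw [hYY, ← lieL_sub] at h1
      apply LinearMap.ext
      intro u
      exact congrArg (fun f : End k (V × Dual k V) => (f (u, 0)).1) h1
    · intro X hn
      rw [h0]
      refine KC2.casimir_kills (lieT (R2 ρ) 1) hnt om (lie_skew X) fun Z hZ => ?_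
      have hZ' := eq_lie hZ
      rw [hZ', lie_br]
      apply hn
      rw [mem_LT, ← hZ']
      exact hZ

end

end Pool.Agent.K1H15.MT
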