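import Mathlib
import Pool.Agent.K1H15.MT.Mot2
import Pool.Agent.K1H15.MT.MDefs

/-!
# The weight operator belongs to the Lie algebra of the Tate tensors
-/

set_option linter.unusedSectionVars false

namespace Pool.Agent.K1H15.MT

open Module Finset Function Polynomial TensorProduct Pool.Agent.H204R3.SP Pool.Agent.H204R3.GP
  Pool.Agent.K1H13.N Pool.Agent.K1H13.D4 Pool.Agent.W516.FT Pool.Agent.Y114.RM Pool.Agent.Y114.TF
  Pool.Agent.TH118.SG Pool.Agent.W516.DR

noncomputable section

/-- An additive function with prescribed values on the Weil numbers. -/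
theorem exists_weight_fun (Ω : Type) [Field Ω] [CharZero Ω] {q : ℕ} (hq : 1 < q) :
    ∃ θ : Additive Ωˣ →+ Ω, ∀ (β : Ωˣ) (w : ℤ) (P : ℚ[X]), P ≠ 0 → aeval (β : Ω) P = 0 →
      (∀ a ∈ P.aroots ℂ, ‖a‖ ^ 2 = (q : ℝ) ^ w) → θ (Additive.ofMul β) = w := by
  let A := algebraicClosure ℚ Ω
  have _ : Algebra.IsAlgebraic ℚ A := algebraicClosure.isAlgebraic ℚ Ω
  let j : A →ₐ[ℚ] ℂ := IsAlgClosed.lift
  let ui : Additive Aˣ →ₗ[ℤ] Additive Ωˣ :=
    (MonoidHom.toAdditive (Units.map (algebraMap A Ω).toMonoidHom)).toIntLinearMap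
  have hui : Function.Injective ui := by
    intro x y hxy
    have h1 : Units.map (algebraMap A Ω).toMonoidHom (Additive.toMul x) =
        Units.map (algebraMap A Ω).toMonoidHom (Additive.toMul y) := hxy
    have h2 : algebraMap A Ω (Additive.toMul x : Aˣ) = algebraMap A Ω (Additive.toMul y : Aˣ) :=
      congrArg Units.val h1
    exact congrArg Additive.ofMul (Units.ext ((algebraMap A Ω).injective h2))
  have hlq : Real.log q ≠ 0 := (Real.log_pos (by exact_mod_cast hq)).ne'
  obtain ⟨f, hf⟩ : ∃ f : ℝ →ₗ[ℚ] ℚ, f (Real.log q) = 1 := by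
    obtain ⟨f, hf⟩ : ∃ f : ℝ →ₗ[ℚ] ℚ, f (Real.log q) ≠ 0 := by
      by_contra hcon
      push Not at hcon
      exact hlq ((Module.forall_dual_apply_eq_zero_iff ℚ (Real.log q)).1 hcon)
    exact ⟨(f (Real.log q))⁻¹ • f, by
      rw [LinearMap.smul_apply, smul_eq_mul, inv_mul_cancel₀ hf]⟩
  let θ0 : Additive Aˣ →ₗ[ℤ] Ω := AddMonoidHom.toIntLinearMap
    { toFun := fun x => ((f (2 * Real.log ‖j ((Additive.toMul x : Aˣ) : A)‖) : ℚ) : Ω)
      map_zero' := by simp
      map_add' := by
        intro x y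
        have hx : ‖j ((Additive.toMul x : Aˣ) : A)‖ ≠ 0 := by
          rw [norm_ne_zero_iff, _root_.map_ne_zero]
          exact Units.ne_zero _
        have hy : ‖j ((Additive.toMul y : Aˣ) : A)‖ ≠ 0 := by
          rw [norm_ne_zero_iff, _root_.map_ne_zero]
          exact Units.ne_zero _
        have hxy : j ((Additive.toMul (x + y) : Aˣ) : A) =
            j ((Additive.toMul x : Aˣ) : A) * j ((Additive.toMul y : Aˣ) : A) := by
          rw [toMul_add, Units.val_mul]
          exact map_mul j _ _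
        rw [hxy, norm_mul, Real.log_mul hx hy, mul_add, map_add]
        push_cast
        rfl }
  have hθ0 : ∀ b : Aˣ, θ0 (Additive.ofMul b) = ((f (2 * Real.log ‖j (b : A)‖) : ℚ) : Ω) :=
    fun _ => rfl
  obtain ⟨h, hh⟩ := Module.Baer.extension_property (Module.Baer.of_divisible Ω) ui hui θ0
  refine ⟨h.toAddMonoidHom, fun β w P hP hPβ hw => ?_⟩
  have hβ : (β : Ω) ∈ A := by
    rw [mem_algebraicClosure_iff]
    exact ⟨P, hP, hPβ⟩
  have hb0 : (⟨β, hβ⟩ : A) ≠ 0 := fun h0 => Units.ne_zero β (congrArg Subtype.val h0)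
  let b : Aˣ := Units.mk0 ⟨β, hβ⟩ hb0
  have h1 : ui (Additive.ofMul b) = Additive.ofMul β := congrArg Additive.ofMul (Units.ext rfl)
  have h2 : h (Additive.ofMul β) = θ0 (Additive.ofMul b) := by
    rw [← h1]
    exact LinearMap.congr_fun hh _
  change h (Additive.ofMul β) = _
  rw [h2, hθ0]
  have h3 : aeval (b : A) P = 0 := by
    apply (algebraMap A Ω).injective
    rw [map_zero, ← aeval_algebraMap_apply]
    exact hPβ
  have h4 : j (b : A) ∈ P.aroots ℂ := by
    rw [mem_aroots]
    refine ⟨hP, ?_⟩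
    rw [aeval_algHom_apply, h3, map_zero]
  have h5 := hw _ h4
  have h6 : 2 * Real.log ‖j (b : A)‖ = (w : ℚ) • Real.log q := by
    have h7 := congrArg Real.log h5
    rw [Real.log_pow, Real.log_zpow] at h7
    push_cast at h7
    rw [h7, Rat.smul_def]
    push_cast
    rfl
  rw [h6, map_smul, hf, smul_eq_mul, mul_one]
  push_cast
  rfl

variable {k : Type} [Field k] [CharZero k] {ι : Type} [Fintype ι] [DecidableEq ι] {V : ι → Type}
  [∀ i, AddCommGroup (V i)] [∀ i, Module k (V i)] [∀ i, FiniteDimensional k (V i)]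
  {Γ : Type} [Group Γ]

theorem weightOp_apply (w : ι → ℤ) (x : ∀ i, V i) (i : ι) :
    weightOp k V w x i = (w i : k) • x i := rfl

/-- **The weight operator kills the Tate tensors**, if there is one element with pure
eigenvalues. -/
theorem weight_mem {ρ : ∀ i, Representation k Γ (V i)} {w : ι → ℤ} {γ : Γ} {q : ℕ} (hq : 1 < q)
    {P : ι → ℚ[X]} (hP : ∀ i, (ρ i γ).charpoly = (P i).map (algebraMap ℚ k))
    (hw : ∀ i, ∀ a ∈ (P i).aroots ℂ, ‖a‖ ^ 2 = (q : ℝ) ^ w i) :
    weightOp k V w ∈ LT (sumRep ρ) := by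
  classical
  let Ω := AlgebraicClosure k
  have _ : CharZero Ω := charZero_of_injective_algebraMap (algebraMap k Ω).injective
  obtain ⟨θ, hθ⟩ := exists_weight_fun Ω hq
  let E := (∀ i, V i) × Dual k (∀ i, V i)
  obtain ⟨Y, hY, hYP⟩ := exists_slope (ρ := bcr (R2 (sumRep ρ)) Ω) (χ := cu (1 : Γ →* Ω)) γ θ
  have hYL : Y ∈ lieT (bcr (R2 (sumRep ρ)) Ω) (bcc (1 : Γ →* k) Ω) := by
    have h1 : bcc (1 : Γ →* k) Ω = 1 := by
      ext s
      rw [bcc_apply]
      exact map_one _
    have h2 := slope_lie hYP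
    have h3 : ext0 θ ((cu (1 : Γ →* Ω) γ : Ωˣ) : Ω) = 0 := by
      rw [cu_apply]
      exact ext0_one θ
    rw [h3, zero_div, zero_smul] at h2
    have h4 : (Y, (0 : Ω)).1 - (0 : End Ω (Ω ⊗[k] E)) = Y := sub_zero Y
    rw [h1, ← h4]
    exact h2
  -- the inclusion of a summand
  let J : ∀ i, V i →ₗ[k] E := fun i => LinearMap.inl k (∀ i, V i) (Dual k (∀ i, V i)) ∘ₗ
    LinearMap.single k V i
  have hJ : ∀ i (z : Ω ⊗[k] V i), bcr (R2 (sumRep ρ)) Ω γ ((J i).baseChange Ω z) =
      (J i).baseChange Ω ((ρ i γ).baseChange Ω z) := by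
    intro i z
    induction z with
    | zero => simp only [map_zero]
    | add z z' h h' => simp only [map_add, h, h']
    | tmul a u =>
      rw [LinearMap.baseChange_tmul, LinearMap.baseChange_tmul, LinearMap.baseChange_tmul,
        bcr_tmul]
      congr 1
      refine Prod.ext ?_ ?_
      · funext l
        change ρ l γ ((Pi.single i u : ∀ i, V i) l) = (Pi.single i (ρ i γ u) : ∀ i, V i) l
        by_cases hl : l = i
        · subst hl
          rw [Pi.single_eq_same, Pi.single_eq_same]
        · rw [Pi.single_eq_of_ne hl, Pi.single_eq_of_ne hl, map_zero]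
      · apply LinearMap.ext
        intro v
        rfl
  have hkey : ∀ i (z : Ω ⊗[k] V i), Y ((J i).baseChange Ω z) =
      (w i : Ω) • (J i).baseChange Ω z := by
    intro i z
    have hz : z ∈ ⨆ β, Module.End.maxGenEigenspace ((ρ i γ).baseChange Ω) β := by
      rw [Module.End.iSup_maxGenEigenspace_eq_top]
      exact Submodule.mem_top
    induction hz using Submodule.iSup_induction' with
    | mem β z hz =>
      by_cases hz0 : z = 0
      · rw [hz0, map_zero, map_zero, smul_zero]
      have hz' : (J i).baseChange Ω z ∈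
          Module.End.maxGenEigenspace (bcr (R2 (sumRep ρ)) Ω γ) β := by
        obtain ⟨m, hm⟩ := mem_gen.1 hz
        refine mem_gen.2 ⟨m, ?_⟩
        have h1 : ∀ (m : ℕ) (z : Ω ⊗[k] V i),
            ((bcr (R2 (sumRep ρ)) Ω γ - algebraMap Ω (End Ω (Ω ⊗[k] E)) β) ^ m)
              ((J i).baseChange Ω z) = (J i).baseChange Ω
              ((((ρ i γ).baseChange Ω - algebraMap Ω (End Ω (Ω ⊗[k] V i)) β) ^ m) z) := by
          intro m
          induction m with
          | zero => intro z; rfl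
          | succ m ih =>
            intro z
            rw [pow_succ, Module.End.mul_apply, pow_succ, Module.End.mul_apply, ← ih]
            congr 1
            rw [LinearMap.sub_apply, LinearMap.sub_apply, hJ, Module.algebraMap_end_apply,
              Module.algebraMap_end_apply, map_sub, map_smul]
        rw [h1, hm, map_zero]
      rw [hY β _ hz']
      congr 1
      -- `β` is a root of `P i`
      obtain ⟨u, hu0, hu⟩ := exists_eig hz hz0
      have hβ0 : β ≠ 0 := by
        rintro rfl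
        apply hu0
        have h1 := congrArg ((ρ i γ⁻¹).baseChange Ω) hu
        rw [zero_smul, map_zero, ← Module.End.mul_apply, ← LinearMap.baseChange_mul, ← map_mul,
          inv_mul_cancel, map_one] at h1
        have h2 : (1 : End k (V i)).baseChange Ω = 1 := LinearMap.baseChange_id
        rw [h2] at h1
        exact h1
      have hroot : aeval β (P i) = 0 := by
        have h1 : Module.End.HasEigenvalue ((ρ i γ).baseChange Ω) β :=
          Module.End.hasEigenvalue_of_hasEigenvector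
            ⟨(Module.End.mem_eigenspace_iff).2 hu, hu0⟩
        have h2 := (Module.End.hasEigenvalue_iff_isRoot_charpoly _ β).1 h1
        rw [LinearMap.charpoly_baseChange, hP, Polynomial.map_map] at h2
        rw [Polynomial.IsRoot.def, Polynomial.eval_map] at h2
        rw [Polynomial.aeval_def]
        have h3 : (algebraMap k Ω).comp (algebraMap ℚ k) = algebraMap ℚ Ω :=
          Subsingleton.elim _ _
        rwa [h3] at h2
      have hPne : P i ≠ 0 := by
        intro h0
        have h1 := LinearMap.charpoly_monic (ρ i γ)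
        rw [hP, h0, Polynomial.map_zero] at h1
        exact h1.ne_zero rfl
      rw [ext0_ne θ hβ0]
      exact hθ (Units.mk0 β hβ0) (w i) (P i) hPne hroot (hw i)
    | zero => rw [map_zero, map_zero, smul_zero]
    | add x y _ _ hx hy => rw [map_add, map_add, hx, hy, smul_add]
  -- descent
  obtain ⟨lam, hlam⟩ : ∃ lam : Ω →ₗ[k] k, lam 1 ≠ 0 := by
    by_contra hcon
    push Not at hcon
    exact one_ne_zero (eq_zero_of_dual (k := k) (x := (1 : Ω)) hcon)
  have h1 := lie_cmp (R2 (sumRep ρ)) 1 hYL lam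
  have h2 := eq_lie h1
  have h3 : LinearMap.fst k (∀ i, V i) (Dual k (∀ i, V i)) ∘ₗ cmpE lam Y ∘ₗ
      LinearMap.inl k (∀ i, V i) (Dual k (∀ i, V i)) = lam 1 • weightOp k V w := by
    refine LinearMap.pi_ext fun i u => ?_
    have h4 := hkey i ((1 : Ω) ⊗ₜ[k] u)
    rw [LinearMap.baseChange_tmul] at h4
    have h5 : cmpE lam Y (J i u) = lam 1 • ((w i : k) • J i u) := by
      rw [cmpE_apply, h4]
      have h6 : (w i : Ω) • ((1 : Ω) ⊗ₜ[k] J i u) = (1 : Ω) ⊗ₜ[k] ((w i : k) • J i u) := by
        rw [tmul_smul, ← algebraMap_smul Ω (w i : k) ((1 : Ω) ⊗ₜ[k] J i u), map_intCast]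
      rw [h6, cmp_tmul]
    change (cmpE lam Y (J i u)).1 = _
    rw [h5]
    funext l
    change lam 1 • ((w i : k) • (Pi.single i u : ∀ i, V i) l) =
      lam 1 • ((w l : k) • (Pi.single i u : ∀ i, V i) l)
    by_cases hl : l = i
    · subst hl
      rfl
    · rw [Pi.single_eq_of_ne hl]
      simp
  rw [h3] at h2
  have h4 : lam 1 • weightOp k V w ∈ LT (sumRep ρ) := by
    rw [mem_LT, ← h2]
    exact h1
  have h5 := (LT (sumRep ρ)).smul_mem (lam 1)⁻¹ h4
  rwa [smul_smul, inv_mul_cancel₀ hlam, one_smul] at h5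

end

end Pool.Agent.K1H15.MT
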