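import Mathlib
import Pool.Agent.K1H15.MT.MDefs
import Pool.Agent.K1H15.MT.Wt
import Pool.Agent.K1H13.N.Desc

/-!
# One tensor of degree four and the motivic Mumford-Tate conjecture
-/

set_option linter.unusedSectionVars false

namespace Pool.Agent.K1H15.MT

open Module Polynomial Pool.Agent.Y114.TF Pool.Agent.Y114.RM Pool.Agent.H204R3.GP
  Pool.Agent.W516.FT

variable {Γ : Type} [Group Γ] {ι : Type} [Fintype ι] [DecidableEq ι] {n : ι → ℕ} {ℓ : ℕ}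
  [Fact ℓ.Prime]

theorem killsTate_iff (ρ : Reps Γ n ℓ) (X : End ℚ_[ℓ] (∀ i, Fin (n i) → ℚ_[ℓ])) :
    KillsTate (sumRep ρ) X ↔ X ∈ LT (sumRep ρ) :=
  (mem_LT_iff (ρ := sumRep ρ)).symm

theorem motivic_main (ρ : Reps Γ n ℓ) (hss : Semisimple ρ) :
    ∃ Θ : TensorOf n ℓ 4, IsFixed ρ Θ ∧ ∀ 𝔤 : EndSpace n ℓ, Motivic ρ 𝔤 →
      (TateEndosMotivated ρ 𝔤 → (IsMotivated 𝔤 Θ ↔ DerivedKillsTate ρ 𝔤)) ∧
      ∀ (w : ι → ℤ) (γ : Γ) (q : ℕ), PureElement ρ w γ q → CentreKnown ρ 𝔤 w →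
        (TateTensorsOf ρ 𝔤 ↔ TateEndosMotivated ρ 𝔤 ∧ IsMotivated 𝔤 Θ) := by
  obtain ⟨Θ, h1, h2, h3⟩ := exists_decisive_tensor (ρ := sumRep ρ) hss
    (Pool.Agent.K1H13.N.bdd_bcr (R2 (sumRep ρ)))
  refine ⟨Θ, h1, fun 𝔤' h𝔤' => ?_⟩
  let 𝔤 : Submodule ℚ_[ℓ] (End ℚ_[ℓ] (∀ i, Fin (n i) → ℚ_[ℓ])) := 𝔤'
  have h𝔤 : IsMotivic ρ 𝔤 := h𝔤'
  change (CommutesWithEndos (sumRep ρ) 𝔤 → (KilledTensor 𝔤 Θ ↔ DerivedKills (sumRep ρ) 𝔤)) ∧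
    ∀ (w : ι → ℤ) (γ : Γ) (q : ℕ), PureAt ρ w γ q → CentreUpTo (sumRep ρ) 𝔤 (weightOp ℚ_[ℓ] (fun i => Fin (n i) → ℚ_[ℓ]) w) →
      (TateIsKilledBy (sumRep ρ) 𝔤 ↔ CommutesWithEndos (sumRep ρ) 𝔤 ∧ KilledTensor 𝔤 Θ)
  have hle : ∀ X ∈ LT (sumRep ρ), X ∈ 𝔤 := by
    intro X hX
    refine h𝔤.algebraic X fun m φ hφ => ?_
    exact mem_LT_iff.1 hX m φ (h𝔤.tate m φ hφ)
  refine ⟨fun hE => ⟨fun hΘ X hX Y hY => ?_, fun hder X hX => ?_⟩, fun w γ q hγ hcen =>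
    ⟨fun h => ?_, fun h m φ => ⟨fun hφ X hX => ?_, fun hφ => h𝔤.tate m φ hφ⟩⟩⟩
  · rw [killsTate_iff]
    obtain ⟨A, hA, hC⟩ := h2 X (hΘ X hX)
    obtain ⟨B, hB, hD⟩ := h2 Y (hΘ Y hY)
    have e1 := hE _ hC Y hY
    have e2 := comm_of_almost hD hA
    have e3 := LT_br hA hB
    have e4 : X * Y - Y * X = A * B - B * A := by
      rw [mul_sub, sub_mul] at e1 e2
      have e5 : X * Y - Y * X = A * Y - Y * A := by
        rw [← sub_eq_zero] at e1 ⊢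
        rw [← neg_eq_zero, ← e1]
        abel
      have e6 : A * Y - Y * A = A * B - B * A := by
        rw [← sub_eq_zero] at e2 ⊢
        rw [← e2]
        abel
      rw [e5, e6]
    rw [e4]
    exact e3
  · refine h3 X fun Z hZ => ?_
    rw [← killsTate_iff]
    exact hder X hX Z (hle Z hZ)
  · have hle' : ∀ X ∈ 𝔤, X ∈ LT (sumRep ρ) := by
      intro X hX
      rw [mem_LT_iff]
      intro m φ hφ
      exact (h m φ).1 hφ X hX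
    refine ⟨fun P hP X hX => comm_of_almost hP (hle' X hX), fun X hX => ?_⟩
    refine (h 4 Θ).1 ⟨⊤, inferInstance, fun g _ v => h1 g v⟩ X hX
  · obtain ⟨hE, hΘ⟩ := h
    obtain ⟨A, hA, hC⟩ := h2 X (hΘ X hX)
    have hCg : X - A ∈ 𝔤 := Submodule.sub_mem _ hX (hle A hA)
    obtain ⟨c, hc⟩ := hcen (X - A) hCg (fun Y hY => (hE _ hC Y hY).symm)
    rw [killsTate_iff] at hc
    obtain ⟨hq, P, hP, hw⟩ := hγ
    have hW : weightOp ℚ_[ℓ] (fun i => Fin (n i) → ℚ_[ℓ]) w ∈ LT (sumRep ρ) :=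
      weight_mem (k := ℚ_[ℓ]) (V := fun i => Fin (n i) → ℚ_[ℓ]) hq hP hw
    have e1 : X ∈ LT (sumRep ρ) := by
      have e2 : X = (X - A - c • weightOp ℚ_[ℓ] (fun i => Fin (n i) → ℚ_[ℓ]) w) + c • weightOp ℚ_[ℓ] (fun i => Fin (n i) → ℚ_[ℓ]) w + A := by abel
      rw [e2]
      exact Submodule.add_mem _ (Submodule.add_mem _ hc (Submodule.smul_mem _ c hW)) hA
    exact mem_LT_iff.1 e1 m φ hφ

end Pool.Agent.K1H15.MT
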